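import Mathlib

set_option autoImplicit false
open Filter Topology Matrix

namespace Margulis3

/-- the product of the three coordinate forms of a matrix -/
noncomputable def prodForm (g : Matrix (Fin 3) (Fin 3) ℝ) (x : Fin 3 → ℝ) : ℝ :=
  ∏ i, (g *ᵥ x) i

lemma prodForm_eq (g : Matrix (Fin 3) (Fin 3) ℝ) (x : Fin 3 → ℝ) :
    prodForm g x = (g 0 0 * x 0 + g 0 1 * x 1 + g 0 2 * x 2)
      * (g 1 0 * x 0 + g 1 1 * x 1 + g 1 2 * x 2)
      * (g 2 0 * x 0 + g 2 1 * x 1 + g 2 2 * x 2) := by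
  simp [prodForm, Fin.prod_univ_three, mulVec, dotProduct, Fin.sum_univ_three]

lemma det_diagonal3 (d : Fin 3 → ℝ) : (Matrix.diagonal d).det = d 0 * d 1 * d 2 := by
  simp [Fin.prod_univ_three]

/-- numerical heart of the lower bound -/
lemma amgm_bound (x : Fin 3 → ℝ) (C : ℝ) (hC : 1 ≤ C)
    (h : ∀ d : Fin 3 → ℝ, d 0 * d 1 * d 2 = 1 →
      1 ≤ C * (|d 0 * x 0| + |d 1 * x 1| + |d 2 * x 2|)) :
    1 / (27 * C ^ 3) ≤ |x 0 * x 1 * x 2| := by
  have key : ∀ a b c : ℝ, (∀ p q r : ℝ, p * q * r = 1 →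
      1 ≤ C * (|p * a| + |q * b| + |r * c|)) → a ≠ 0 := by
    intro a b c hh ha
    set T := |b| + |c| with hT
    have hT0 : 0 ≤ T := by positivity
    set e : ℝ := 1 / (2 * C * (T + 1)) with he
    have hpos : 0 < 2 * C * (T + 1) := by positivity
    have he0 : 0 < e := by positivity
    have h1 := hh (1 / (e * e)) e e (by field_simp)
    rw [ha, mul_zero, abs_zero, zero_add, abs_mul, abs_mul, abs_of_pos he0] at h1
    have h2 : C * (e * |b| + e * |c|) = C * e * T := by rw [hT]; ring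
    rw [h2] at h1
    have h3 : C * e * T < 1 := by
      have : C * e * T = T / (2 * (T + 1)) := by
        rw [he]; field_simp
      rw [this, div_lt_one (by positivity)]
      linarith
    linarith
  have h0 : x 0 ≠ 0 := key (x 0) (x 1) (x 2) (fun p q r hpqr => by
    simpa using h ![p, q, r] (by simpa using hpqr))
  have h1 : x 1 ≠ 0 := key (x 1) (x 0) (x 2) (fun p q r hpqr => by
    have h3 := h ![q, p, r] (by
      simp only [Matrix.cons_val_zero, Matrix.cons_val_one, Matrix.cons_val]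
      rw [← hpqr]; ring)
    simp only [Matrix.cons_val_zero, Matrix.cons_val_one, Matrix.cons_val] at h3
    have e : |p * x 1| + |q * x 0| + |r * x 2| = |q * x 0| + |p * x 1| + |r * x 2| := by ring
    rw [e]; exact h3)
  have h2 : x 2 ≠ 0 := key (x 2) (x 0) (x 1) (fun p q r hpqr => by
    have h3 := h ![q, r, p] (by
      simp only [Matrix.cons_val_zero, Matrix.cons_val_one, Matrix.cons_val]
      rw [← hpqr]; ring)
    simp only [Matrix.cons_val_zero, Matrix.cons_val_one, Matrix.cons_val] at h3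
    have e : |p * x 2| + |q * x 0| + |r * x 1| = |q * x 0| + |r * x 1| + |p * x 2| := by ring
    rw [e]; exact h3)
  set P := |x 0 * x 1 * x 2| with hP
  have hPpos : 0 < P := abs_pos.mpr (mul_ne_zero (mul_ne_zero h0 h1) h2)
  obtain ⟨t, ht0, ht⟩ : ∃ t : ℝ, 0 < t ∧ t ^ 3 = P := by
    refine ⟨P ^ ((1 : ℝ) / 3), Real.rpow_pos_of_pos hPpos _, ?_⟩
    rw [← Real.rpow_natCast, ← Real.rpow_mul hPpos.le]
    norm_num
  have h3 := h ![t / |x 0|, t / |x 1|, t / |x 2|] (by
    simp only [Matrix.cons_val_zero, Matrix.cons_val_one, Matrix.cons_val]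
    have e1 : t / |x 0| * (t / |x 1|) * (t / |x 2|) = t ^ 3 / P := by
      rw [hP, abs_mul, abs_mul]; field_simp
    rw [e1, ht]; exact div_self hPpos.ne')
  simp only [Matrix.cons_val_zero, Matrix.cons_val_one, Matrix.cons_val] at h3
  have e2 : ∀ y : ℝ, y ≠ 0 → |t / |y| * y| = t := by
    intro y hy
    rw [abs_mul, abs_div, abs_abs, abs_of_pos ht0]
    field_simp
  rw [e2 _ h0, e2 _ h1, e2 _ h2] at h3
  have h4 : 1 / (3 * C) ≤ t := by
    rw [div_le_iff₀ (by positivity)]; linarith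
  have h5 : (1 / (3 * C)) ^ 3 ≤ t ^ 3 := pow_le_pow_left₀ (by positivity) h4 3
  rw [ht] at h5
  calc 1 / (27 * C ^ 3) = (1 / (3 * C)) ^ 3 := by field_simp; ring
    _ ≤ P := h5

/-- bounded orbits: the product of the three forms is bounded below at nonzero integer vectors -/
theorem lower_bound (g : Matrix (Fin 3) (Fin 3) ℝ)
    (hK : ∃ K : Set (Matrix (Fin 3) (Fin 3) ℝ), IsCompact K ∧
        ∀ d : Fin 3 → ℝ, (Matrix.diagonal d).det = 1 →
          ∃ γ : Matrix (Fin 3) (Fin 3) ℤ, γ.det = 1 ∧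
            Matrix.diagonal d * g * γ.map (fun z : ℤ => (z : ℝ)) ∈ K)
    (hg : g.det = 1) :
    ∃ δ : ℝ, 0 < δ ∧ ∀ v : Fin 3 → ℤ, v ≠ 0 → δ ≤ |prodForm g (fun j => (v j : ℝ))| := by
  obtain ⟨K, hKc, hK⟩ := hK
  -- bound for the adjugate on K
  have hcont : Continuous (fun M : Matrix (Fin 3) (Fin 3) ℝ => ∑ i, ∑ j, |M.adjugate i j|) := by
    refine continuous_finsetSum _ fun i _ => continuous_finsetSum _ fun j _ => ?_
    exact (((continuous_id (X := Matrix (Fin 3) (Fin 3) ℝ)).matrix_adjugate).matrix_elem i j).abs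
  obtain ⟨C0, hC0⟩ := (hKc.image hcont).bddAbove
  set C := max C0 1 with hCdef
  have hC1 : 1 ≤ C := le_max_right _ _
  have hC : ∀ M ∈ K, ∀ i j, |M.adjugate i j| ≤ C := by
    intro M hM i j
    have h1 : ∑ i, ∑ j, |M.adjugate i j| ≤ C0 := hC0 ⟨M, hM, rfl⟩
    have h2 : |M.adjugate i j| ≤ ∑ j, |M.adjugate i j| :=
      Finset.single_le_sum (f := fun j => |M.adjugate i j|) (fun _ _ => abs_nonneg _)
        (Finset.mem_univ j)
    have h3 : ∑ j, |M.adjugate i j| ≤ ∑ i, ∑ j, |M.adjugate i j| :=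
      Finset.single_le_sum (f := fun i => ∑ j, |M.adjugate i j|)
        (fun _ _ => Finset.sum_nonneg fun _ _ => abs_nonneg _) (Finset.mem_univ i)
    exact (h2.trans h3).trans (h1.trans (le_max_left _ _))
  refine ⟨1 / (27 * C ^ 3), by positivity, fun v hv => ?_⟩
  have hx : prodForm g (fun j => (v j : ℝ)) =
      (g *ᵥ (fun j => (v j : ℝ))) 0 * (g *ᵥ (fun j => (v j : ℝ))) 1
        * (g *ᵥ (fun j => (v j : ℝ))) 2 := by
    simp [prodForm, Fin.prod_univ_three]
  rw [hx]
  refine amgm_bound (g *ᵥ (fun j => (v j : ℝ))) C hC1 fun d hd => ?_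
  obtain ⟨γ, hγ, hM⟩ := hK d (by rw [det_diagonal3]; exact hd)
  set M := Matrix.diagonal d * g * γ.map (fun z : ℤ => (z : ℝ)) with hMdef
  -- integer vector w with γ w = v
  set w : Fin 3 → ℤ := γ.adjugate *ᵥ v with hw
  have hγw : γ *ᵥ w = v := by
    rw [hw, mulVec_mulVec, mul_adjugate, hγ, one_smul, one_mulVec]
  have hw0 : w ≠ 0 := by
    intro h0
    rw [h0, mulVec_zero] at hγw
    exact hv hγw.symm
  set wr : Fin 3 → ℝ := fun j => (w j : ℝ) with hwr
  have hcast : (γ.map (fun z : ℤ => (z : ℝ))) *ᵥ wr = fun j => (v j : ℝ) := by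
    funext i
    have := congrFun hγw i
    simp only [mulVec, dotProduct] at this ⊢
    rw [← this]
    push_cast
    rfl
  have hMw : M *ᵥ wr = fun i => d i * (g *ᵥ (fun j => (v j : ℝ))) i := by
    rw [hMdef, ← mulVec_mulVec, hcast, ← mulVec_mulVec]
    funext i
    rw [mulVec_diagonal]
  have hdetγ : (γ.map (fun z : ℤ => (z : ℝ))).det = 1 := by
    have : (γ.map (Int.castRingHom ℝ)).det = ((γ.det : ℤ) : ℝ) := by
      rw [← RingHom.mapMatrix_apply, ← RingHom.map_det]; rfl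
    rw [hγ] at this
    simpa using this
  have hdetM : M.det = 1 := by
    rw [hMdef, det_mul, det_mul, hg, hdetγ, det_diagonal3, hd]; norm_num
  have hrec : M.adjugate *ᵥ (M *ᵥ wr) = wr := by
    rw [mulVec_mulVec, adjugate_mul, hdetM, one_smul, one_mulVec]
  obtain ⟨i, hi⟩ : ∃ i, w i ≠ 0 := by
    by_contra hcon
    push Not at hcon
    exact hw0 (funext hcon)
  have hone : (1 : ℝ) ≤ |wr i| := by
    have : (1 : ℤ) ≤ |w i| := Int.one_le_abs hi
    have h2 : ((1 : ℤ) : ℝ) ≤ ((|w i| : ℤ) : ℝ) := by exact_mod_cast this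
    simpa [hwr] using h2
  have hle : |wr i| ≤ C * (|d 0 * (g *ᵥ (fun j => (v j : ℝ))) 0|
      + |d 1 * (g *ᵥ (fun j => (v j : ℝ))) 1| + |d 2 * (g *ᵥ (fun j => (v j : ℝ))) 2|) := by
    have e1 : wr i = ∑ j, M.adjugate i j * (d j * (g *ᵥ (fun j => (v j : ℝ))) j) := by
      conv_lhs => rw [← hrec, hMw]
      rfl
    rw [e1, Fin.sum_univ_three]
    have t1 : ∀ j, |M.adjugate i j * (d j * (g *ᵥ (fun j => (v j : ℝ))) j)|
        ≤ C * |d j * (g *ᵥ (fun j => (v j : ℝ))) j| := by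
      intro j
      rw [abs_mul]
      exact mul_le_mul_of_nonneg_right (hC M hM i j) (abs_nonneg _)
    refine (abs_add_le _ _).trans ?_
    have := abs_add_le (M.adjugate i 0 * (d 0 * (g *ᵥ (fun j => (v j : ℝ))) 0))
      (M.adjugate i 1 * (d 1 * (g *ᵥ (fun j => (v j : ℝ))) 1))
    nlinarith [t1 0, t1 1, t1 2, this]
  linarith

/-- a cubic form in three variables which is a product of linear forms is determined by
its values at ten integer points -/
lemma prodForm_determined (M N : Matrix (Fin 3) (Fin 3) ℝ)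
    (h1 : prodForm M ![1, 0, 0] = prodForm N ![1, 0, 0])
    (h2 : prodForm M ![0, 1, 0] = prodForm N ![0, 1, 0])
    (h3 : prodForm M ![0, 0, 1] = prodForm N ![0, 0, 1])
    (h4 : prodForm M ![1, 1, 0] = prodForm N ![1, 1, 0])
    (h5 : prodForm M ![1, -1, 0] = prodForm N ![1, -1, 0])
    (h6 : prodForm M ![1, 0, 1] = prodForm N ![1, 0, 1])
    (h7 : prodForm M ![1, 0, -1] = prodForm N ![1, 0, -1])
    (h8 : prodForm M ![0, 1, 1] = prodForm N ![0, 1, 1])
    (h9 : prodForm M ![0, 1, -1] = prodForm N ![0, 1, -1])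
    (h10 : prodForm M ![1, 1, 1] = prodForm N ![1, 1, 1]) (x : Fin 3 → ℝ) :
    prodForm M x = prodForm N x := by
  have key : ∀ P : Matrix (Fin 3) (Fin 3) ℝ, prodForm P x =
      prodForm P ![1, 0, 0] * x 0 ^ 3 + prodForm P ![0, 1, 0] * x 1 ^ 3
      + prodForm P ![0, 0, 1] * x 2 ^ 3
      + ((prodForm P ![1, 1, 0] - prodForm P ![1, -1, 0]) / 2 - prodForm P ![0, 1, 0])
          * (x 0 ^ 2 * x 1)
      + ((prodForm P ![1, 1, 0] + prodForm P ![1, -1, 0]) / 2 - prodForm P ![1, 0, 0])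
          * (x 0 * x 1 ^ 2)
      + ((prodForm P ![1, 0, 1] - prodForm P ![1, 0, -1]) / 2 - prodForm P ![0, 0, 1])
          * (x 0 ^ 2 * x 2)
      + ((prodForm P ![1, 0, 1] + prodForm P ![1, 0, -1]) / 2 - prodForm P ![1, 0, 0])
          * (x 0 * x 2 ^ 2)
      + ((prodForm P ![0, 1, 1] - prodForm P ![0, 1, -1]) / 2 - prodForm P ![0, 0, 1])
          * (x 1 ^ 2 * x 2)
      + ((prodForm P ![0, 1, 1] + prodForm P ![0, 1, -1]) / 2 - prodForm P ![0, 1, 0])
          * (x 1 * x 2 ^ 2)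
      + (prodForm P ![1, 1, 1] - prodForm P ![1, 1, 0] - prodForm P ![1, 0, 1]
          - prodForm P ![0, 1, 1] + prodForm P ![1, 0, 0] + prodForm P ![0, 1, 0]
          + prodForm P ![0, 0, 1]) * (x 0 * x 1 * x 2) := by
    intro P
    simp only [prodForm_eq, Matrix.cons_val_zero, Matrix.cons_val_one, Matrix.cons_val]
    ring
  rw [key M, key N, h1, h2, h3, h4, h5, h6, h7, h8, h9, h10]

/-- a matrix close to the identity preserving the product of coordinates is diagonal -/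
lemma near_one_diag (E : Matrix (Fin 3) (Fin 3) ℝ)
    (hE : ∀ i j, |E i j - (1 : Matrix (Fin 3) (Fin 3) ℝ) i j| < 1 / 4)
    (h : ∀ y : Fin 3 → ℝ, prodForm E y = y 0 * y 1 * y 2) :
    E 0 1 = 0 ∧ E 0 2 = 0 ∧ E 1 0 = 0 ∧ E 1 2 = 0 ∧ E 2 0 = 0 ∧ E 2 1 = 0 := by
  have b : ∀ i j, -(1/4) < E i j - (1 : Matrix (Fin 3) (Fin 3) ℝ) i j ∧
      E i j - (1 : Matrix (Fin 3) (Fin 3) ℝ) i j < 1/4 := fun i j => abs_lt.mp (hE i j)
  have b00 := b 0 0
  have b01 := b 0 1
  have b02 := b 0 2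
  have b10 := b 1 0
  have b11 := b 1 1
  have b12 := b 1 2
  have b20 := b 2 0
  have b21 := b 2 1
  have b22 := b 2 2
  simp at b00 b01 b02 b10 b11 b12 b20 b21 b22
  have z : ∀ p q r : ℝ, p * q * r = 0 → p ≠ 0 → q ≠ 0 → r = 0 := by
    intro p q r hh hp hq
    rcases mul_eq_zero.mp hh with h1 | h1
    · rcases mul_eq_zero.mp h1 with h2 | h2
      · exact absurd h2 hp
      · exact absurd h2 hq
    · exact h1
  have a1 := h ![1, 1, 0]
  have a2 := h ![1, -1, 0]
  have a3 := h ![1, 0, 1]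
  have a4 := h ![1, 0, -1]
  have a5 := h ![0, 1, 1]
  have a6 := h ![0, 1, -1]
  simp only [prodForm_eq, Matrix.cons_val_zero, Matrix.cons_val_one, Matrix.cons_val] at a1 a2 a3 a4 a5 a6
  have c1 : E 2 0 + E 2 1 = 0 := z (E 0 0 + E 0 1) (E 1 0 + E 1 1) _ (by linarith)
    (by intro h; linarith) (by intro h; linarith)
  have c2 : E 2 0 - E 2 1 = 0 := z (E 0 0 - E 0 1) (E 1 0 - E 1 1) _ (by linarith)
    (by intro h; linarith) (by intro h; linarith)
  have c3 : E 1 0 + E 1 2 = 0 := z (E 0 0 + E 0 2) (E 2 0 + E 2 2) _ (by linarith)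
    (by intro h; linarith) (by intro h; linarith)
  have c4 : E 1 0 - E 1 2 = 0 := z (E 0 0 - E 0 2) (E 2 0 - E 2 2) _ (by linarith)
    (by intro h; linarith) (by intro h; linarith)
  have c5 : E 0 1 + E 0 2 = 0 := z (E 1 1 + E 1 2) (E 2 1 + E 2 2) _ (by linarith)
    (by intro h; linarith) (by intro h; linarith)
  have c6 : E 0 1 - E 0 2 = 0 := z (E 1 1 - E 1 2) (E 2 1 - E 2 2) _ (by linarith)
    (by intro h; linarith) (by intro h; linarith)
  refine ⟨?_, ?_, ?_, ?_, ?_, ?_⟩ <;> linarith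

/-- a convergent sequence with values in a discrete group of reals is eventually constant -/
lemma eventually_eq_of_discrete (κ : ℝ) (hκ : 0 < κ) (f : ℕ → ℝ) (l : ℝ)
    (hf : Tendsto f atTop (𝓝 l)) (hm : ∀ n, ∃ m : ℤ, f n = κ * m) :
    ∀ᶠ n in atTop, f n = l := by
  choose m hm using hm
  have h1 : ∀ᶠ n in atTop, |f n - l| < κ / 2 := by
    have := (Metric.tendsto_nhds.mp hf) (κ / 2) (by positivity)
    simpa [Real.dist_eq] using this
  obtain ⟨N, hN⟩ := eventually_atTop.mp h1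
  have hconst : ∀ n ≥ N, f n = f N := by
    intro n hn
    have h2 : |f n - f N| < κ := by
      have a := hN n hn
      have b := hN N le_rfl
      rw [abs_lt] at a b ⊢
      constructor <;> linarith [a.1, a.2, b.1, b.2]
    rw [hm n, hm N] at h2 ⊢
    have h3 : |((m n - m N : ℤ) : ℝ)| < 1 := by
      have : κ * (m n : ℝ) - κ * (m N : ℝ) = κ * ((m n - m N : ℤ) : ℝ) := by push_cast; ring
      rw [this, abs_mul, abs_of_pos hκ] at h2
      by_contra hcon
      push Not at hcon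
      nlinarith
    have h4 : |m n - m N| < 1 := by exact_mod_cast h3
    have h5 : m n = m N := by
      have := Int.abs_lt_one_iff.mp h4
      omega
    rw [h5]
  have hl : f N = l := by
    refine tendsto_nhds_unique (f := f) (l := atTop) ?_ hf
    exact tendsto_const_nhds.congr' (eventually_atTop.mpr ⟨N, fun n hn => (hconst n hn).symm⟩)
  exact eventually_atTop.mpr ⟨N, fun n hn => (hconst n hn).trans hl⟩

/-- if the product of the forms of g takes values in a discrete group at integer vectors,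
then the A-orbit of g SL_3(Z) is closed -/
theorem closed_of_discrete (g : Matrix (Fin 3) (Fin 3) ℝ) (hg : g.det = 1)
    (κ : ℝ) (hκ : 0 < κ)
    (hF : ∀ v : Fin 3 → ℤ, ∃ m : ℤ, prodForm g (fun j => (v j : ℝ)) = κ * m) :
    IsClosed {M : Matrix (Fin 3) (Fin 3) ℝ |
        ∃ d : Fin 3 → ℝ, (Matrix.diagonal d).det = 1 ∧
          ∃ γ : Matrix (Fin 3) (Fin 3) ℤ, γ.det = 1 ∧
            M = Matrix.diagonal d * g * γ.map (fun z : ℤ => (z : ℝ))} := by
  haveI hseq : SequentialSpace (Matrix (Fin 3) (Fin 3) ℝ) :=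
    inferInstanceAs (SequentialSpace (Fin 3 → Fin 3 → ℝ))
  rw [← isSeqClosed_iff_isClosed]
  intro Ms M hMs hlim
  choose d hd γ hγ hMeq using hMs
  have hdetγ : ∀ n, ((γ n).map (fun z : ℤ => (z : ℝ))).det = 1 := by
    intro n
    have : ((γ n).map (Int.castRingHom ℝ)).det = (((γ n).det : ℤ) : ℝ) := by
      rw [← RingHom.mapMatrix_apply, ← RingHom.map_det]; rfl
    rw [hγ] at this
    simpa using this
  have hdetMs : ∀ n, (Ms n).det = 1 := by
    intro n
    rw [hMeq n, det_mul, det_mul, hg, hdetγ, hd]; norm_num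
  have hdetM : M.det = 1 := by
    have h1 : Tendsto (fun n => (Ms n).det) atTop (𝓝 M.det) :=
      ((continuous_id (X := Matrix (Fin 3) (Fin 3) ℝ)).matrix_det).continuousAt.tendsto.comp hlim
    refine tendsto_nhds_unique h1 ?_
    simp [hdetMs]
  -- values at integer vectors
  have hval : ∀ v : Fin 3 → ℤ, ∀ n, ∃ m : ℤ, prodForm (Ms n) (fun j => (v j : ℝ)) = κ * m := by
    intro v n
    obtain ⟨m, hm⟩ := hF (γ n *ᵥ v)
    refine ⟨m, ?_⟩
    rw [← hm]
    have hcast : ((γ n).map (fun z : ℤ => (z : ℝ))) *ᵥ (fun j => (v j : ℝ))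
        = fun j => (((γ n *ᵥ v) j : ℤ) : ℝ) := by
      funext i
      simp only [mulVec, dotProduct]
      push_cast
      rfl
    unfold prodForm
    rw [hMeq n, ← mulVec_mulVec, hcast, ← mulVec_mulVec]
    simp only [mulVec_diagonal]
    rw [Finset.prod_mul_distrib]
    have : ∏ i, d n i = 1 := by
      have := hd n
      rwa [det_diagonal] at this
    rw [this, one_mul]
  have hcontv : ∀ x : Fin 3 → ℝ, Tendsto (fun n => prodForm (Ms n) x) atTop (𝓝 (prodForm M x)) := by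
    intro x
    have hc : Continuous (fun N : Matrix (Fin 3) (Fin 3) ℝ => prodForm N x) := by
      unfold prodForm
      refine continuous_finsetProd _ fun i _ => ?_
      exact (continuous_apply i).comp ((continuous_id (X := Matrix (Fin 3) (Fin 3) ℝ)).matrix_mulVec continuous_const)
    exact hc.continuousAt.tendsto.comp hlim
  have hev : ∀ v : Fin 3 → ℤ, ∀ᶠ n in atTop,
      prodForm (Ms n) (fun j => (v j : ℝ)) = prodForm M (fun j => (v j : ℝ)) := fun v =>
    eventually_eq_of_discrete κ hκ _ _ (hcontv _) (hval v)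
  have conv : ∀ a b c : ℤ, (fun j => ((![a, b, c] : Fin 3 → ℤ) j : ℝ)) = ![(a : ℝ), (b : ℝ), (c : ℝ)] := by
    intro a b c
    funext j
    fin_cases j <;> rfl
  have hE : Tendsto (fun n => Ms n * M⁻¹) atTop (𝓝 1) := by
    have h1 : Tendsto (fun n => Ms n * M⁻¹) atTop (𝓝 (M * M⁻¹)) :=
      (Continuous.matrix_mul continuous_id continuous_const).continuousAt.tendsto.comp hlim
    rwa [mul_nonsing_inv _ (by rw [hdetM]; exact isUnit_one)] at h1
  have hEij : ∀ i j, ∀ᶠ n in atTop,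
      |(Ms n * M⁻¹) i j - (1 : Matrix (Fin 3) (Fin 3) ℝ) i j| < 1 / 4 := by
    intro i j
    have h1 : Tendsto (fun n => (Ms n * M⁻¹) i j) atTop (𝓝 ((1 : Matrix (Fin 3) (Fin 3) ℝ) i j)) :=
      ((continuous_id (X := Matrix (Fin 3) (Fin 3) ℝ)).matrix_elem i j).continuousAt.tendsto.comp hE
    have := (Metric.tendsto_nhds.mp h1) (1 / 4) (by norm_num)
    simpa [Real.dist_eq] using this
  have hall : ∀ᶠ n in atTop, ∀ i j,
      |(Ms n * M⁻¹) i j - (1 : Matrix (Fin 3) (Fin 3) ℝ) i j| < 1 / 4 := by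
    rw [eventually_all]; intro i; rw [eventually_all]; intro j; exact hEij i j
  have g1 := hev ![1, 0, 0]
  have g2 := hev ![0, 1, 0]
  have g3 := hev ![0, 0, 1]
  have g4 := hev ![1, 1, 0]
  have g5 := hev ![1, -1, 0]
  have g6 := hev ![1, 0, 1]
  have g7 := hev ![1, 0, -1]
  have g8 := hev ![0, 1, 1]
  have g9 := hev ![0, 1, -1]
  have g10 := hev ![1, 1, 1]
  simp only [conv] at g1 g2 g3 g4 g5 g6 g7 g8 g9 g10
  obtain ⟨n, hn, k1, k2, k3, k4, k5, k6, k7, k8, k9, k10⟩ :=
    (hall.and (g1.and (g2.and (g3.and (g4.and (g5.and (g6.and (g7.and (g8.and (g9.and g10)))))))))).exists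
  push_cast at k1 k2 k3 k4 k5 k6 k7 k8 k9 k10
  have hid := prodForm_determined (Ms n) M k1 k2 k3 k4 k5 k6 k7 k8 k9 k10
  set E := Ms n * M⁻¹ with hEdef
  have hMinv : M⁻¹ * M = 1 := nonsing_inv_mul _ (by rw [hdetM]; exact isUnit_one)
  have hMinv' : M * M⁻¹ = 1 := mul_nonsing_inv _ (by rw [hdetM]; exact isUnit_one)
  have hprod : ∀ y : Fin 3 → ℝ, prodForm E y = y 0 * y 1 * y 2 := by
    intro y
    have h1 : prodForm E y = prodForm (Ms n) (M⁻¹ *ᵥ y) := by
      unfold prodForm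
      rw [mulVec_mulVec]
    rw [h1, hid]
    unfold prodForm
    rw [mulVec_mulVec, hMinv', one_mulVec, Fin.prod_univ_three]
  obtain ⟨z01, z02, z10, z12, z20, z21⟩ := near_one_diag E hn hprod
  have hEdiag : E = Matrix.diagonal (fun i => E i i) := by
    ext i j
    fin_cases i <;> fin_cases j <;> simp [Matrix.diagonal, z01, z02, z10, z12, z20, z21]
  have hEdet : E.det = 1 := by
    rw [hEdef, det_mul, hdetMs n, one_mul, det_nonsing_inv, hdetM]; simp
  have hEM : Ms n = E * M := by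
    rw [hEdef, mul_assoc, hMinv, mul_one]
  have hdet3 : E 0 0 * E 1 1 * E 2 2 = 1 := by
    have := hEdet
    rw [hEdiag, det_diagonal3] at this
    exact this
  have hne : ∀ i, E i i ≠ 0 := by
    intro i hi
    fin_cases i <;> simp at hi <;> rw [hi] at hdet3 <;> simp at hdet3
  refine ⟨fun i => d n i / E i i, ?_, γ n, hγ n, ?_⟩
  · have := hd n
    rw [det_diagonal3] at this ⊢
    have e : d n 0 / E 0 0 * (d n 1 / E 1 1) * (d n 2 / E 2 2)
        = (d n 0 * d n 1 * d n 2) / (E 0 0 * E 1 1 * E 2 2) := by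
      have := hne 0; have := hne 1; have := hne 2
      field_simp
    rw [e, this, hdet3]; norm_num
  · have h1 : M = Matrix.diagonal (fun i => (E i i)⁻¹) * Ms n := by
      rw [hEM, ← mul_assoc]
      have : Matrix.diagonal (fun i => (E i i)⁻¹) * E = 1 := by
        rw [hEdiag, diagonal_mul_diagonal, ← diagonal_one]
        congr 1
        funext i
        simp [hne i]
      rw [this, one_mul]
    rw [h1, hMeq n, ← mul_assoc, ← mul_assoc, diagonal_mul_diagonal]
    congr 3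
    funext i
    rw [div_eq_inv_mul]

end Margulis3
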