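import Pool.Agent.Margulis3.RealCase

set_option autoImplicit false
open Filter Topology Matrix Module NumberField

namespace Margulis3

variable {K : Type*} [Field K] [NumberField K]

/-- totally real case: the form is a multiple of the norm form -/
theorem real_case (D : RealData K) (c a b d a' b' d' δ : ℝ) (hδ : 0 < δ)
    (hdet : b * d' - d * b' ≠ 0)
    (H : ∀ y : 𝓞 K, y ≠ 0 → δ ≤ |c * D.τ 0 y * (a * D.τ 0 y + b * D.τ 1 y + d * D.τ 2 y)
      * (a' * D.τ 0 y + b' * D.τ 1 y + d' * D.τ 2 y)|) :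
    ∃ C : ℝ, ∀ y : K, c * D.τ 0 y * (a * D.τ 0 y + b * D.τ 1 y + d * D.τ 2 y)
      * (a' * D.τ 0 y + b' * D.τ 1 y + d' * D.τ 2 y) = C * (D.τ 0 y * D.τ 1 y * D.τ 2 y) := by
  set D1 := D.perm ⟨![1, 0, 2], ![1, 0, 2], by decide, by decide⟩ with hD1
  set D2 := D.perm ⟨![2, 0, 1], ![1, 2, 0], by decide, by decide⟩ with hD2
  have e10 : D1.τ 0 = D.τ 1 := rfl
  have e11 : D1.τ 1 = D.τ 0 := rfl
  have e12 : D1.τ 2 = D.τ 2 := rfl
  have e20 : D2.τ 0 = D.τ 2 := rfl
  have e21 : D2.τ 1 = D.τ 0 := rfl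
  have e22 : D2.τ 2 = D.τ 1 := rfl
  rcases D.rc1 c a b d a' b' d' δ hδ H with hb | hd
  · subst hb
    have hd0 : d ≠ 0 := by rintro rfl; simp at hdet
    have hb' : b' ≠ 0 := by rintro rfl; simp at hdet
    have hd' : d' = 0 := by
      rcases D.rc1 c a' b' d' a 0 d δ hδ (fun y hy => by
        refine (H y hy).trans (le_of_eq ?_); congr 1; ring) with h | h
      · exact absurd h hb'
      · exact h
    subst hd'
    have ha : a = 0 := by
      refine D1.rc3 c a d a' b' δ hδ hd0 fun y hy => ?_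
      rw [e10, e11, e12]
      refine (H y hy).trans (le_of_eq ?_); congr 1; ring
    have ha' : a' = 0 := by
      refine D2.rc3 c a' b' a d δ hδ hb' fun y hy => ?_
      rw [e20, e21, e22]
      refine (H y hy).trans (le_of_eq ?_); congr 1; ring
    subst ha; subst ha'
    exact ⟨c * d * b', fun y => by ring⟩
  · subst hd
    have hb0 : b ≠ 0 := by rintro rfl; simp at hdet
    have hd' : d' ≠ 0 := by rintro rfl; simp at hdet
    have hb' : b' = 0 := by
      rcases D.rc1 c a' b' d' a b 0 δ hδ (fun y hy => by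
        refine (H y hy).trans (le_of_eq ?_); congr 1; ring) with h | h
      · exact h
      · exact absurd h hd'
    subst hb'
    have ha : a = 0 := by
      refine D2.rc3 c a b a' d' δ hδ hb0 fun y hy => ?_
      rw [e20, e21, e22]
      refine (H y hy).trans (le_of_eq ?_); congr 1; ring
    have ha' : a' = 0 := by
      refine D1.rc3 c a' d' a b δ hδ hd' fun y hy => ?_
      rw [e10, e11, e12]
      refine (H y hy).trans (le_of_eq ?_); congr 1; ring
    subst ha; subst ha'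
    exact ⟨c * b * d', fun y => by ring⟩

/-- complex case is impossible -/
theorem complex_case (h3 : finrank ℚ K = 3) (σ : Fin 3 → (K →+* ℂ))
    (hinj : Function.Injective σ) (τ0 : K →+* ℝ) (h0 : ∀ y, σ 0 y = (τ0 y : ℂ))
    (h12 : ComplexEmbedding.conjugate (σ 1) = σ 2)
    (c a b d a' b' d' δ : ℝ) (hδ : 0 < δ)
    (H : ∀ y : 𝓞 K, y ≠ 0 → δ ≤ |c * τ0 y * (a * τ0 y + b * (σ 1 y).re + d * (σ 1 y).im)
      * (a' * τ0 y + b' * (σ 1 y).re + d' * (σ 1 y).im)|) : False := by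
  -- a unit contracting at 0
  obtain ⟨u, hu⟩ := NumberField.Units.dirichletUnitTheorem.exists_unit K
    (InfinitePlace.mk (σ 1))
  have hl0 : lg (σ 0) (Additive.ofMul u) < 0 := by
    refine hu (InfinitePlace.mk (σ 0)) ?_
    intro h
    rw [InfinitePlace.mk_eq_iff] at h
    rcases h with h | h
    · exact absurd (hinj h) (by decide)
    · have : ComplexEmbedding.conjugate (σ 0) = σ 0 := by
        ext y
        rw [ComplexEmbedding.conjugate_coe_eq, h0]
        exact Complex.conj_ofReal _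
      rw [this] at h
      exact absurd (hinj h) (by decide)
  have hn12 : ∀ y : K, ‖σ 2 y‖ = ‖σ 1 y‖ := by
    intro y
    rw [← h12, ComplexEmbedding.conjugate_coe_eq, Complex.norm_conj]
  set U : Additive (𝓞 K)ˣ := Additive.ofMul u with hU
  set ℓ := lg (σ 0) U with hℓ
  have hl1 : lg (σ 1) U = - ℓ / 2 := by
    have h1 := lg_sum h3 σ hinj U
    have h2 : lg (σ 2) U = lg (σ 1) U := by
      change Real.log _ = Real.log _
      rw [hn12]
    rw [h2] at h1
    linarith
  set θ := (σ 1 (u : K)).arg with hθ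
  have hpolar : σ 1 (u : K) = Complex.exp (((-ℓ / 2 : ℝ) : ℂ) + θ * Complex.I) := by
    rw [Complex.exp_add, ← Complex.ofReal_exp, ← hl1]
    have : Real.exp (lg (σ 1) U) = ‖σ 1 (u : K)‖ := Real.exp_log (norm_pos' _ u)
    rw [this, Complex.norm_mul_exp_arg_mul_I]
  have hpow : ∀ n : ℤ, σ 1 ((u ^ n : (𝓞 K)ˣ) : K) =
      Complex.exp (((-(n * ℓ) / 2 : ℝ) : ℂ) + ((n * θ : ℝ) : ℂ) * Complex.I) := by
    intro n
    rw [NumberField.Units.coe_zpow, map_zpow₀, hpolar, ← Complex.exp_int_mul]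
    congr 1
    push_cast
    ring
  have hre : ∀ n : ℤ, (σ 1 ((u ^ n : (𝓞 K)ˣ) : K)).re
      = Real.exp (-(n * ℓ) / 2) * Real.cos (n * θ) := by
    intro n
    rw [hpow, Complex.exp_re]
    simp
  have him : ∀ n : ℤ, (σ 1 ((u ^ n : (𝓞 K)ˣ) : K)).im
      = Real.exp (-(n * ℓ) / 2) * Real.sin (n * θ) := by
    intro n
    rw [hpow, Complex.exp_im]
    simp
  have hτ : ∀ n : ℤ, |τ0 ((u ^ n : (𝓞 K)ˣ) : K)| = Real.exp (n * ℓ) := by
    intro n
    rw [NumberField.Units.coe_zpow, map_zpow₀, abs_zpow]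
    have h1 : |τ0 (u : K)| = Real.exp ℓ := by
      have : Real.exp ℓ = ‖σ 0 (u : K)‖ := Real.exp_log (norm_pos' _ u)
      rw [this, h0, Complex.norm_real, Real.norm_eq_abs]
    rw [h1, ← Real.rpow_intCast, ← Real.exp_mul, mul_comm]
  -- the group Z^2
  let φ : ℤ × ℤ →+ ℝ :=
    { toFun := fun p => p.1 * θ + p.2 * Real.pi
      map_zero' := by simp
      map_add' := by intro p q; simp only [Prod.fst_add, Prod.snd_add]; push_cast; ring }
  let h : ℤ × ℤ →+ ℝ :=
    { toFun := fun p => -(p.1 : ℝ)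
      map_zero' := by simp
      map_add' := by intro p q; simp only [Prod.fst_add]; push_cast; ring }
  have hφ : ∀ p, φ p = p.1 * θ + p.2 * Real.pi := fun _ => rfl
  have hh : ∀ p, h p = -(p.1 : ℝ) := fun _ => rfl
  have hdense : Dense (Set.range φ) := by
    rcases AddSubgroup.dense_or_cyclic φ.range with hd | ⟨α, hα⟩
    · simpa using hd
    exfalso
    have m1 : φ (1, 0) ∈ φ.range := ⟨_, rfl⟩
    have m2 : φ (0, 1) ∈ φ.range := ⟨_, rfl⟩
    rw [hα, AddSubgroup.mem_closure_singleton] at m1 m2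
    obtain ⟨m, hm⟩ := m1
    obtain ⟨n, hn⟩ := m2
    rw [hφ] at hm hn
    simp at hm hn
    have hn0 : n ≠ 0 := by
      rintro rfl
      simp at hn
      exact Real.pi_ne_zero hn.symm
    have hreal : (n : ℝ) * θ = m * Real.pi := by
      rw [← hm, ← hn]; ring
    have him0 : (σ 1 ((u ^ n : (𝓞 K)ˣ) : K)).im = 0 := by
      rw [him, hreal, Real.sin_int_mul_pi, mul_zero]
    have heq : σ 1 ((u ^ n : (𝓞 K)ˣ) : K) = σ 2 ((u ^ n : (𝓞 K)ˣ) : K) := by
      rw [← h12, ComplexEmbedding.conjugate_coe_eq]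
      exact (Complex.conj_eq_iff_im.mpr him0).symm
    obtain ⟨q, hq⟩ := rat_of_eq h3 _ _ (fun h => absurd (hinj h) (by decide)) _ heq
    have h5 := norm_one_of_rat h3 σ hinj (u ^ n) q hq 0
    have h6 := hτ n
    rw [h0, Complex.norm_real, Real.norm_eq_abs, h6, Real.exp_eq_one_iff] at h5
    rcases mul_eq_zero.mp h5 with h7 | h7
    · exact hn0 (by exact_mod_cast h7)
    · exact hl0.ne h7
  have hfin : ∀ B : ℝ, {x : ℤ × ℤ | |φ x| ≤ B ∧ |h x| ≤ B}.Finite := by
    intro B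
    set N : ℤ := ⌈|B| + |B| * |θ|⌉ with hN
    have hNB : |B| + |B| * |θ| ≤ (N : ℝ) := Int.le_ceil _
    refine ((Set.finite_Icc (-N) N).prod (Set.finite_Icc (-N) N)).subset ?_
    rintro ⟨p, q⟩ ⟨h1, h2⟩
    rw [hφ] at h1
    rw [hh, abs_neg] at h2
    simp only at h1 h2
    have hB : |(p : ℝ)| ≤ |B| := h2.trans (le_abs_self B)
    have h1' : |(p : ℝ) * θ + q * Real.pi| ≤ |B| := h1.trans (le_abs_self B)
    have hp : |(p : ℝ)| ≤ N := by
      refine hB.trans ((le_add_of_nonneg_right (by positivity)).trans hNB)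
    have hq : |(q : ℝ)| ≤ N := by
      have e1 : |(q : ℝ)| * 1 ≤ |(q : ℝ) * Real.pi| := by
        rw [abs_mul, abs_of_pos Real.pi_pos]
        exact mul_le_mul_of_nonneg_left (by linarith [Real.pi_gt_three]) (abs_nonneg _)
      have e2 : |(q : ℝ) * Real.pi| ≤ |(p : ℝ) * θ + q * Real.pi| + |(p : ℝ) * θ| := by
        have := abs_sub ((p : ℝ) * θ + q * Real.pi) ((p : ℝ) * θ)
        rwa [add_sub_cancel_left] at this
      have e3 : |(p : ℝ) * θ| ≤ |B| * |θ| := by
        rw [abs_mul]; exact mul_le_mul_of_nonneg_right hB (abs_nonneg _)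
      linarith
    have hp' : |p| ≤ N := by exact_mod_cast hp
    have hq' : |q| ≤ N := by exact_mod_cast hq
    exact ⟨abs_le.mp hp', abs_le.mp hq'⟩
  -- target angle
  obtain ⟨t0, ht0⟩ : ∃ t0 : ℝ, b * Real.cos t0 + d * Real.sin t0 = 0 := by
    have hc : Continuous fun t : ℝ => b * Real.cos t + d * Real.sin t := by fun_prop
    rcases le_total 0 b with hb | hb
    · have h1 := intermediate_value_Icc' (a := 0) (b := Real.pi) Real.pi_pos.le hc.continuousOn
      obtain ⟨t, -, ht⟩ := h1 (show (0 : ℝ) ∈ Set.Icc _ _ by simp [hb])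
      exact ⟨t, ht⟩
    · have h1 := intermediate_value_Icc (a := 0) (b := Real.pi) Real.pi_pos.le hc.continuousOn
      obtain ⟨t, -, ht⟩ := h1 (show (0 : ℝ) ∈ Set.Icc _ _ by simp [hb])
      exact ⟨t, ht⟩
  have hs : ∀ n : ℕ, ∃ x : ℤ × ℤ, |φ x - t0| < 1 / ((n : ℝ) + 1) ∧ h x < -(n : ℝ) := fun n =>
    strip φ h hdense hfin t0 (1 / ((n : ℝ) + 1)) n (by positivity)
  choose x hx1 hx2 using hs
  have hx1' : Tendsto (fun n => φ (x n)) atTop (𝓝 t0) := by
    rw [tendsto_iff_dist_tendsto_zero]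
    refine squeeze_zero (fun _ => dist_nonneg) (fun n => ?_) tendsto_one_div_add_atTop_nhds_zero_nat
    rw [Real.dist_eq]
    exact (hx1 n).le
  have hk : Tendsto (fun n => ((x n).1 : ℝ)) atTop atTop := by
    refine tendsto_atTop_mono (fun n => ?_) tendsto_natCast_atTop_atTop
    have := hx2 n
    rw [hh] at this
    linarith
  have hG : Tendsto (fun n => |b * Real.cos (φ (x n)) + d * Real.sin (φ (x n))|) atTop (𝓝 0) := by
    have hc : Continuous fun t : ℝ => |b * Real.cos t + d * Real.sin t| := by fun_prop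
    have := (hc.tendsto t0).comp hx1'
    rw [ht0, abs_zero] at this
    exact this
  have hGeq : ∀ n, |b * Real.cos ((x n).1 * θ) + d * Real.sin ((x n).1 * θ)|
      = |b * Real.cos (φ (x n)) + d * Real.sin (φ (x n))| := by
    intro n
    rw [hφ, Real.cos_add_int_mul_pi, Real.sin_add_int_mul_pi]
    have : b * ((-1) ^ (x n).2 * Real.cos ((x n).1 * θ)) + d * ((-1) ^ (x n).2 *
        Real.sin ((x n).1 * θ)) = (-1) ^ (x n).2 *
        (b * Real.cos ((x n).1 * θ) + d * Real.sin ((x n).1 * θ)) := by ring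
    rw [this, abs_mul, abs_zpow]
    simp
  have he : Tendsto (fun n => Real.exp (3 / 2 * (((x n).1 : ℝ) * ℓ))) atTop (𝓝 0) := by
    refine Real.tendsto_exp_atBot.comp ?_
    refine Tendsto.const_mul_atBot (by norm_num) ?_
    exact hk.atTop_mul_const_of_neg hl0
  refine RealData.not_tendsto_zero δ hδ (fun n =>
    |c| * (|a| * Real.exp (3 / 2 * (((x n).1 : ℝ) * ℓ))
      + |b * Real.cos (φ (x n)) + d * Real.sin (φ (x n))|)
      * (|a'| * Real.exp (3 / 2 * (((x n).1 : ℝ) * ℓ)) + (|b'| + |d'|))) ?_ ?_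
  · intro n
    set k := (x n).1 with hkdef
    have h1 := H (((u ^ k : (𝓞 K)ˣ) : 𝓞 K)) (Units.ne_zero _)
    refine h1.trans ?_
    set T := τ0 ((u ^ k : (𝓞 K)ˣ) : K) with hT
    have hTT : τ0 ((((u ^ k : (𝓞 K)ˣ) : 𝓞 K)) : K) = T := rfl
    have hRR : (σ 1 ((((u ^ k : (𝓞 K)ˣ) : 𝓞 K)) : K)).re
      = Real.exp (-(k * ℓ) / 2) * Real.cos (k * θ) := hre k
    have hII : (σ 1 ((((u ^ k : (𝓞 K)ˣ) : 𝓞 K)) : K)).im
      = Real.exp (-(k * ℓ) / 2) * Real.sin (k * θ) := him k
    rw [hRR, hII]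
    have hTabs : |T| = Real.exp (k * ℓ) := hτ k
    have key : ∀ p q r : ℝ, |p * T + q * (Real.exp (-(k * ℓ) / 2) * Real.cos (k * θ))
        + r * (Real.exp (-(k * ℓ) / 2) * Real.sin (k * θ))|
        ≤ Real.exp (-(k * ℓ) / 2) * (|p| * Real.exp (3 / 2 * (k * ℓ))
          + |q * Real.cos (k * θ) + r * Real.sin (k * θ)|) := by
      intro p q r
      have e1 : p * T + q * (Real.exp (-(k * ℓ) / 2) * Real.cos (k * θ))
        + r * (Real.exp (-(k * ℓ) / 2) * Real.sin (k * θ))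
        = p * T + Real.exp (-(k * ℓ) / 2) * (q * Real.cos (k * θ) + r * Real.sin (k * θ)) := by
        ring
      rw [e1]
      refine (abs_add_le _ _).trans (le_of_eq ?_)
      rw [abs_mul, abs_mul, abs_of_pos (Real.exp_pos _), hTabs]
      have e2 : Real.exp (k * ℓ) = Real.exp (-(k * ℓ) / 2) * Real.exp (3 / 2 * (k * ℓ)) := by
        rw [← Real.exp_add]; congr 1; ring
      rw [e2]; ring
    have k1 := key a b d
    have k2 := key a' b' d'
    have k3 : |b' * Real.cos (k * θ) + d' * Real.sin (k * θ)| ≤ |b'| + |d'| := by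
      refine (abs_add_le _ _).trans ?_
      rw [abs_mul, abs_mul]
      have c1 := Real.abs_cos_le_one (k * θ)
      have c2 := Real.abs_sin_le_one (k * θ)
      have := abs_nonneg b'
      have := abs_nonneg d'
      nlinarith
    rw [hGeq] at k1
    have hexp : Real.exp (k * ℓ) * (Real.exp (-(k * ℓ) / 2) * Real.exp (-(k * ℓ) / 2)) = 1 := by
      rw [← Real.exp_add, ← Real.exp_add]
      have : (k : ℝ) * ℓ + (-(k * ℓ) / 2 + -(k * ℓ) / 2) = 0 := by ring
      rw [this, Real.exp_zero]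
    have hpos := Real.exp_pos (-(k * ℓ) / 2)
    have hpos2 := Real.exp_pos (3 / 2 * ((k : ℝ) * ℓ))
    have habs : ∀ z : ℝ, 0 ≤ z → |z| = z := fun z hz => abs_of_nonneg hz
    rw [habs (|c| * _ * _) (by positivity), abs_mul, abs_mul, abs_mul, hTabs]
    set X1 := |a * T + b * (Real.exp (-(k * ℓ) / 2) * Real.cos (k * θ))
        + d * (Real.exp (-(k * ℓ) / 2) * Real.sin (k * θ))|
    set X2 := |a' * T + b' * (Real.exp (-(k * ℓ) / 2) * Real.cos (k * θ))
        + d' * (Real.exp (-(k * ℓ) / 2) * Real.sin (k * θ))|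
    have k2' : X2 ≤ Real.exp (-(k * ℓ) / 2) * (|a'| * Real.exp (3 / 2 * (k * ℓ))
          + (|b'| + |d'|)) := by
      refine k2.trans ?_
      exact mul_le_mul_of_nonneg_left (by linarith) hpos.le
    calc |c| * Real.exp (k * ℓ) * X1 * X2
        ≤ |c| * Real.exp (k * ℓ) * (Real.exp (-(k * ℓ) / 2) * (|a| * Real.exp (3 / 2 * (k * ℓ))
          + |b * Real.cos (φ (x n)) + d * Real.sin (φ (x n))|))
          * (Real.exp (-(k * ℓ) / 2) * (|a'| * Real.exp (3 / 2 * (k * ℓ))
          + (|b'| + |d'|))) := by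
          refine mul_le_mul (mul_le_mul_of_nonneg_left k1 (by positivity)) k2' (abs_nonneg _)
            (by positivity)
      _ = (Real.exp (k * ℓ) * (Real.exp (-(k * ℓ) / 2) * Real.exp (-(k * ℓ) / 2))) *
          (|c| * (|a| * Real.exp (3 / 2 * (k * ℓ))
          + |b * Real.cos (φ (x n)) + d * Real.sin (φ (x n))|)
          * (|a'| * Real.exp (3 / 2 * (k * ℓ)) + (|b'| + |d'|))) := by ring
      _ = _ := by rw [hexp, one_mul]
  · have h1 := (((he.const_mul |a|).add hG).const_mul |c|).mul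
      ((he.const_mul |a'|).add_const (|b'| + |d'|))
    have e : |c| * (|a| * 0 + 0) * (|a'| * 0 + (|b'| + |d'|)) = 0 := by ring
    rw [e] at h1
    exact h1

end Margulis3
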