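import Mathlib

set_option autoImplicit false
open Filter Topology Matrix Module NumberField

namespace Margulis3

/-- strip lemma: elements with phi near any value and h very negative -/
lemma strip {G : Type*} [AddCommGroup G] (φ h : G →+ ℝ) (hd : Dense (Set.range φ))
    (hfin : ∀ B : ℝ, {x : G | |φ x| ≤ B ∧ |h x| ≤ B}.Finite) (t ε R : ℝ) (hε : 0 < ε) :
    ∃ x, |φ x - t| < ε ∧ h x < -R := by
  obtain ⟨y, hy⟩ : ∃ y, |φ y - t| < ε / 2 := by
    obtain ⟨_, ⟨y, rfl⟩, hy⟩ := hd.exists_dist_lt t (half_pos hε)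
    refine ⟨y, ?_⟩
    rw [Real.dist_eq] at hy
    rwa [abs_sub_comm]
  obtain ⟨x, hx1, hx2⟩ : ∃ x, |φ x| < ε / 2 ∧ R + |h y| < |h x| := by
    by_contra hcon
    push Not at hcon
    have hsub : {x : G | |φ x| < ε / 2} ⊆ {x : G | |φ x| ≤ max (ε / 2) (R + |h y|) ∧
        |h x| ≤ max (ε / 2) (R + |h y|)} := by
      intro x hx
      exact ⟨le_max_of_le_left (le_of_lt hx), le_max_of_le_right (hcon x hx)⟩
    have hf : {x : G | |φ x| < ε / 2}.Finite := (hfin _).subset hsub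
    have hf2 : (φ '' {x : G | |φ x| < ε / 2}).Finite := hf.image _
    have hopen : IsOpen (Set.Ioo (-(ε / 2)) (ε / 2) \ (φ '' {x : G | |φ x| < ε / 2})) :=
      isOpen_Ioo.sdiff hf2.isClosed
    have hne : (Set.Ioo (-(ε / 2)) (ε / 2) \ (φ '' {x : G | |φ x| < ε / 2})).Nonempty := by
      have : (Set.Ioo (-(ε / 2)) (ε / 2)).Infinite := Set.Ioo_infinite (by linarith)
      exact (this.diff hf2).nonempty
    obtain ⟨_, hz, ⟨z, rfl⟩⟩ := hd.inter_open_nonempty _ hopen hne
    exact hz.2 ⟨z, abs_lt.mpr hz.1, rfl⟩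
  rcases le_or_gt 0 (h x) with h0 | h0
  · refine ⟨y - x, ?_, ?_⟩
    · rw [map_sub, sub_right_comm]
      refine (abs_sub _ _).trans_lt ?_
      linarith
    · rw [map_sub]
      rw [abs_of_nonneg h0] at hx2
      linarith [le_abs_self (h y)]
  · refine ⟨y + x, ?_, ?_⟩
    · rw [map_add, add_sub_right_comm]
      refine (abs_add_le _ _).trans_lt ?_
      linarith
    · rw [map_add]
      rw [abs_of_neg h0] at hx2
      linarith [le_abs_self (h y)]

section field

variable {K : Type*} [Field K] [NumberField K]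

/-- in degree three, an element with two equal conjugates is rational -/
lemma rat_of_eq (h3 : finrank ℚ K = 3) (σ τ : K →+* ℂ) (hne : σ ≠ τ) (y : K)
    (h : σ y = τ y) : ∃ q : ℚ, y = algebraMap ℚ K q := by
  haveI := IntermediateField.isSimpleOrder_of_finrank_prime ℚ K (by rw [h3]; exact Nat.prime_three)
  let E : IntermediateField ℚ K :=
    { carrier := {x | σ x = τ x}
      mul_mem' := by intro a b ha hb; simp only [Set.mem_setOf_eq] at *; rw [map_mul, map_mul, ha, hb]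
      add_mem' := by intro a b ha hb; simp only [Set.mem_setOf_eq] at *; rw [map_add, map_add, ha, hb]
      algebraMap_mem' := by intro q; simp
      inv_mem' := by intro a ha; simp only [Set.mem_setOf_eq] at *; rw [map_inv₀, map_inv₀, ha] }
  have hy : y ∈ E := h
  rcases eq_bot_or_eq_top E with hE | hE
  · rw [hE, IntermediateField.mem_bot] at hy
    obtain ⟨q, hq⟩ := hy
    exact ⟨q, hq.symm⟩
  · exfalso
    apply hne
    ext x
    have : x ∈ E := by rw [hE]; exact IntermediateField.mem_top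
    exact this

lemma dedekind (σ : Fin 3 → (K →+* ℂ)) (hinj : Function.Injective σ) (x : Fin 3 → ℂ)
    (h : ∀ y, ∑ i, x i * σ i y = 0) : x = 0 := by
  have h1 := linearIndependent_monoidHom K ℂ
  have h2 : LinearIndependent ℂ (fun i : Fin 3 => (((σ i : K →+* ℂ) : K →* ℂ) : K → ℂ)) := by
    refine h1.comp (fun i : Fin 3 => ((σ i : K →+* ℂ) : K →* ℂ)) ?_
    intro i j hij
    apply hinj
    ext y
    exact DFunLike.congr_fun hij y
  rw [Fintype.linearIndependent_iff] at h2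
  funext i
  refine h2 x ?_ i
  funext y
  simpa using h y

lemma univ_eq (h3 : finrank ℚ K = 3) (σ : Fin 3 → (K →+* ℂ)) (hinj : Function.Injective σ) :
    Function.Bijective σ := by
  rw [Fintype.bijective_iff_injective_and_card]
  refine ⟨hinj, ?_⟩
  rw [NumberField.Embeddings.card, h3]; rfl

lemma norm_eq (h3 : finrank ℚ K = 3) (σ : Fin 3 → (K →+* ℂ)) (hinj : Function.Injective σ)
    (y : K) : ((Algebra.norm ℚ y : ℚ) : ℂ) = σ 0 y * σ 1 y * σ 2 y := by
  have h1 := Algebra.norm_eq_prod_embeddings ℚ ℂ y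
  have h2 : ∏ τ : K →ₐ[ℚ] ℂ, τ y = ∏ i, σ i y := by
    refine (Fintype.prod_equiv ((Equiv.ofBijective σ (univ_eq h3 σ hinj)).trans
      (RingHom.equivRatAlgHom K ℂ)) (fun i => σ i y) (fun τ => τ y) ?_).symm
    intro i
    rfl
  rw [h2, Fin.prod_univ_three] at h1
  rw [← h1]; rfl

lemma unit_prod (h3 : finrank ℚ K = 3) (σ : Fin 3 → (K →+* ℂ)) (hinj : Function.Injective σ)
    (u : (𝓞 K)ˣ) : ‖σ 0 u‖ * ‖σ 1 u‖ * ‖σ 2 u‖ = 1 := by
  rw [← norm_mul, ← norm_mul, ← norm_eq h3 σ hinj]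
  have := NumberField.Units.norm K u
  rw [Complex.norm_ratCast]
  exact_mod_cast this

/-- rational units have all conjugates of absolute value one -/
lemma norm_one_of_rat (h3 : finrank ℚ K = 3) (σ : Fin 3 → (K →+* ℂ))
    (hinj : Function.Injective σ) (u : (𝓞 K)ˣ) (q : ℚ) (hq : (u : K) = algebraMap ℚ K q)
    (i : Fin 3) : ‖σ i u‖ = 1 := by
  have h1 := unit_prod h3 σ hinj u
  have h2 : ∀ i, ‖σ i u‖ = |(q : ℝ)| := by
    intro i
    rw [hq]; simp
  rw [h2, h2, h2] at h1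
  rw [h2]
  have h0 : 0 ≤ |(q : ℝ)| := abs_nonneg _
  nlinarith [sq_nonneg (|(q : ℝ)| - 1), sq_nonneg (|(q : ℝ)| + 1)]

/-- log of the absolute values of conjugates of units -/
noncomputable def lg (σ : K →+* ℂ) : Additive (𝓞 K)ˣ →+ ℝ where
  toFun u := Real.log ‖σ ((Additive.toMul u : (𝓞 K)ˣ) : K)‖
  map_zero' := by simp [NumberField.Units.coe_one]
  map_add' := by
    intro a b
    rw [toMul_add, NumberField.Units.coe_mul, map_mul, norm_mul, Real.log_mul]
    · simpa using NumberField.Units.coe_ne_zero _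
    · simpa using NumberField.Units.coe_ne_zero _

lemma lg_apply (σ : K →+* ℂ) (u : (𝓞 K)ˣ) :
    lg σ (Additive.ofMul u) = Real.log ‖σ (u : K)‖ := rfl

lemma norm_pos' (σ : K →+* ℂ) (u : (𝓞 K)ˣ) : 0 < ‖σ (u : K)‖ := by
  simpa using NumberField.Units.coe_ne_zero u

lemma lg_sum (h3 : finrank ℚ K = 3) (σ : Fin 3 → (K →+* ℂ)) (hinj : Function.Injective σ)
    (u : Additive (𝓞 K)ˣ) : lg (σ 0) u + lg (σ 1) u + lg (σ 2) u = 0 := by
  have h1 := unit_prod h3 σ hinj (Additive.toMul u)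
  have p := fun i => norm_pos' (σ i) (Additive.toMul u)
  have : lg (σ 0) u + lg (σ 1) u + lg (σ 2) u =
      Real.log (‖σ 0 (Additive.toMul u : (𝓞 K)ˣ)‖ * ‖σ 1 (Additive.toMul u : (𝓞 K)ˣ)‖
        * ‖σ 2 (Additive.toMul u : (𝓞 K)ˣ)‖) := by
    rw [Real.log_mul (mul_ne_zero (p 0).ne' (p 1).ne') (p 2).ne',
      Real.log_mul (p 0).ne' (p 1).ne']
    rfl
  rw [this, h1, Real.log_one]

/-- finitely many units with bounded logs -/
lemma units_finite (h3 : finrank ℚ K = 3) (σ : Fin 3 → (K →+* ℂ))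
    (hinj : Function.Injective σ) (B : ℝ) :
    {u : Additive (𝓞 K)ˣ | ∀ i, |lg (σ i) u| ≤ B}.Finite := by
  have h1 := NumberField.Embeddings.finite_of_norm_le K ℂ (Real.exp B)
  have hinj2 : Function.Injective (fun u : Additive (𝓞 K)ˣ => ((Additive.toMul u : (𝓞 K)ˣ) : K)) := by
    intro a b hab
    exact Additive.toMul.injective (NumberField.Units.coe_injective K hab)
  refine Set.Finite.subset (h1.preimage hinj2.injOn) ?_
  intro u hu
  simp only [Set.mem_preimage, Set.mem_setOf_eq] at hu ⊢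
  refine ⟨((Additive.toMul u : (𝓞 K)ˣ) : 𝓞 K).isIntegral_coe, ?_⟩
  intro φ
  obtain ⟨i, rfl⟩ := (univ_eq h3 σ hinj).2 φ
  have h2 := (abs_le.mp (hu i)).2
  have h4 : Real.log ‖(σ i) ((Additive.toMul u : (𝓞 K)ˣ) : K)‖ ≤ B := h2
  exact (Real.log_le_iff_le_exp (norm_pos' (σ i) (Additive.toMul u))).mp h4

end field

end Margulis3
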