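import Pool.Agent.Margulis3.Basic
import Pool.Agent.Margulis3.Cases

set_option autoImplicit false
open Filter Topology Matrix Module NumberField

namespace Margulis3

variable {K : Type*} [Field K] [NumberField K]

/-- common denominators with respect to a basis -/
lemma common_denom (h3 : finrank ℚ K = 3) (k : Fin 3 → K) (hk : LinearIndependent ℚ k) :
    ∃ D : ℤ, D ≠ 0 ∧ ∀ y : 𝓞 K, ∃ v : Fin 3 → ℤ, ∑ j, (v j : K) * k j = D * y := by
  set B := basisOfLinearIndependentOfCardEqFinrank hk (by rw [h3]; rfl) with hB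
  have hBk : ∀ j, B j = k j := fun j => by simp [hB]
  have h1 : ∀ y : K, ∃ D : ℤ, D ≠ 0 ∧ (D : K) * y ∈ Submodule.span ℤ (Set.range k) := by
    intro y
    obtain ⟨⟨D, hD⟩, hDi⟩ := IsLocalization.exist_integer_multiples_of_finite
      (nonZeroDivisors ℤ) (fun j => B.repr y j)
    refine ⟨D, nonZeroDivisors.ne_zero hD, ?_⟩
    have h2 : ∀ j, ∃ n : ℤ, (n : ℚ) = D * B.repr y j := by
      intro j
      obtain ⟨n, hn⟩ := hDi j
      refine ⟨n, ?_⟩
      rw [show ((n : ℤ) : ℚ) = algebraMap ℤ ℚ n from rfl, hn]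
      simp [Algebra.smul_def]
    choose n hn using h2
    have h4 : (D : K) * y = ∑ j, (n j) • k j := by
      conv_lhs => rw [← B.sum_repr y]
      rw [Finset.mul_sum]
      refine Finset.sum_congr rfl fun j _ => ?_
      rw [hBk, Algebra.smul_def, ← mul_assoc, zsmul_eq_mul]
      congr 1
      have := congrArg (algebraMap ℚ K) (hn j)
      rw [map_mul] at this
      simpa using this.symm
    rw [h4]
    exact Submodule.sum_mem _ fun j _ => Submodule.smul_mem _ _ (Submodule.subset_span ⟨j, rfl⟩)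
  set b := RingOfIntegers.basis K with hb
  choose D hD0 hD using fun i => h1 ((b i : 𝓞 K) : K)
  refine ⟨∏ i, D i, Finset.prod_ne_zero_iff.mpr fun i _ => hD0 i, fun y => ?_⟩
  have h5 : (((∏ i, D i : ℤ)) : K) * (y : K) ∈ Submodule.span ℤ (Set.range k) := by
    have h6 : (y : K) = ∑ i, (b.repr y i) • ((b i : 𝓞 K) : K) := by
      conv_lhs => rw [← b.sum_repr y]
      have h8 : ((∑ i, (b.repr y i) • b i : 𝓞 K) : K)
          = algebraMap (𝓞 K) K (∑ i, (b.repr y i) • b i) := rfl
      rw [h8, map_sum]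
      refine Finset.sum_congr rfl fun i _ => ?_
      rw [map_zsmul]
    rw [h6, Finset.mul_sum]
    refine Submodule.sum_mem _ fun i _ => ?_
    classical
    have h7 : (((∏ i, D i : ℤ)) : K) * ((b.repr y i) • ((b i : 𝓞 K) : K))
        = (b.repr y i * ∏ j ∈ Finset.univ.erase i, D j) • ((D i : K) * ((b i : 𝓞 K) : K)) := by
      rw [← Finset.mul_prod_erase Finset.univ D (Finset.mem_univ i)]
      simp only [zsmul_eq_mul]
      push_cast
      ring
    rw [h7]
    exact Submodule.smul_mem _ _ (hD i)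
  rw [Submodule.mem_span_range_iff_exists_fun] at h5
  obtain ⟨c, hc⟩ := h5
  refine ⟨c, ?_⟩
  rw [← hc]
  exact Finset.sum_congr rfl fun j _ => (zsmul_eq_mul _ _).symm

/-- linear algebra: express the forms through three functionals -/
lemma change_basis (ρ : Fin 3 → (K →+ ℝ)) (k : Fin 3 → K) (g : Matrix (Fin 3) (Fin 3) ℝ)
    (c : ℝ) (h0 : ∀ j, g 0 j = c * ρ 0 (k j)) (hg : g.det ≠ 0)
    (hP : (Matrix.of fun m j => ρ m (k j)).det ≠ 0) :
    ∃ a b d a' b' d' : ℝ, b * d' - d * b' ≠ 0 ∧ ∀ v : Fin 3 → ℤ,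
      prodForm g (fun j => (v j : ℝ)) =
        c * ρ 0 (∑ j, (v j : K) * k j) * (a * ρ 0 (∑ j, (v j : K) * k j)
          + b * ρ 1 (∑ j, (v j : K) * k j) + d * ρ 2 (∑ j, (v j : K) * k j))
        * (a' * ρ 0 (∑ j, (v j : K) * k j)
          + b' * ρ 1 (∑ j, (v j : K) * k j) + d' * ρ 2 (∑ j, (v j : K) * k j)) := by
  set P : Matrix (Fin 3) (Fin 3) ℝ := Matrix.of fun m j => ρ m (k j) with hPdef
  have hu : IsUnit P.det := isUnit_iff_ne_zero.mpr hP
  set A := g * P⁻¹ with hA
  have hAP : A * P = g := by rw [hA, mul_assoc, nonsing_inv_mul _ hu, mul_one]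
  have hrow0 : A 0 = ![c, 0, 0] := by
    have h1 : ![c, 0, 0] ᵥ* P = g 0 := by
      funext j
      rw [h0]
      simp [vecMul, dotProduct, Fin.sum_univ_three, hPdef]
    have h2 : A 0 = g 0 ᵥ* P⁻¹ := by
      funext j
      rw [hA, Matrix.mul_apply]
      rfl
    rw [h2, ← h1, vecMul_vecMul, mul_nonsing_inv _ hu, vecMul_one]
  have hrho : ∀ m (v : Fin 3 → ℤ), ρ m (∑ j, (v j : K) * k j) = ∑ j, P m j * (v j : ℝ) := by
    intro m v
    rw [map_sum]
    refine Finset.sum_congr rfl fun j _ => ?_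
    rw [← zsmul_eq_mul, map_zsmul, zsmul_eq_mul, hPdef, Matrix.of_apply, mul_comm]
  have hgv : ∀ (i : Fin 3) (v : Fin 3 → ℤ), (g *ᵥ (fun j => (v j : ℝ))) i
      = A i 0 * ρ 0 (∑ j, (v j : K) * k j) + A i 1 * ρ 1 (∑ j, (v j : K) * k j)
        + A i 2 * ρ 2 (∑ j, (v j : K) * k j) := by
    intro i v
    rw [← hAP, ← mulVec_mulVec]
    have h1 : P *ᵥ (fun j => (v j : ℝ)) = fun m => ρ m (∑ j, (v j : K) * k j) := by
      funext m
      rw [hrho]
      rfl
    rw [h1]
    simp [mulVec, dotProduct, Fin.sum_univ_three]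
  refine ⟨A 1 0, A 1 1, A 1 2, A 2 0, A 2 1, A 2 2, ?_, fun v => ?_⟩
  · intro hcon
    apply hg
    rw [← hAP, det_mul]
    have : A.det = 0 := by
      rw [det_fin_three]
      have a0 : A 0 0 = c := by rw [hrow0]; rfl
      have a1 : A 0 1 = 0 := by rw [hrow0]; rfl
      have a2 : A 0 2 = 0 := by rw [hrow0]; rfl
      rw [a0, a1, a2]
      linear_combination c * hcon
    rw [this, zero_mul]
  · have a0 : A 0 0 = c := by rw [hrow0]; rfl
    have a1 : A 0 1 = 0 := by rw [hrow0]; rfl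
    have a2 : A 0 2 = 0 := by rw [hrow0]; rfl
    rw [prodForm, Fin.prod_univ_three, hgv, hgv, hgv, a0, a1, a2]
    ring

lemma exists_sigma (h3 : finrank ℚ K = 3) (φ : K →+* ℂ) :
    ∃ σ : Fin 3 → (K →+* ℂ), Function.Injective σ ∧ σ 0 = φ := by
  have hc : Fintype.card (Fin 3) = Fintype.card (K →+* ℂ) := by
    rw [NumberField.Embeddings.card, h3]; rfl
  let e := Fintype.equivOfCardEq hc
  refine ⟨fun i => e (Equiv.swap 0 (e.symm φ) i), ?_, ?_⟩
  · exact e.injective.comp (Equiv.injective _)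
  · simp

theorem main_lemma (h3 : finrank ℚ K = 3) (τ0 : K →+* ℝ) (k : Fin 3 → K) (c : ℝ)
    (g : Matrix (Fin 3) (Fin 3) ℝ) (h0 : ∀ j, g 0 j = c * τ0 (k j)) (hg : g.det ≠ 0)
    (δ : ℝ) (hδ : 0 < δ)
    (H : ∀ v : Fin 3 → ℤ, v ≠ 0 → δ ≤ |prodForm g (fun j => (v j : ℝ))|) :
    ∃ κ : ℝ, 0 < κ ∧ ∀ v : Fin 3 → ℤ, ∃ m : ℤ, prodForm g (fun j => (v j : ℝ)) = κ * m := by
  classical
  -- linear independence
  have hli : LinearIndependent ℚ k := by
    rw [← LinearIndependent.iff_fractionRing ℤ ℚ, Fintype.linearIndependent_iff]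
    intro v hv
    by_contra hcon
    have hv0 : v ≠ 0 := by
      rintro rfl
      exact hcon fun i => rfl
    have h1 := H v hv0
    have h2 : (g *ᵥ (fun j => (v j : ℝ))) 0 = 0 := by
      have h3 : (g *ᵥ (fun j => (v j : ℝ))) 0 = c * τ0 (∑ j, v j • k j) := by
        simp only [mulVec, dotProduct]
        rw [map_sum, Finset.mul_sum]
        refine Finset.sum_congr rfl fun j _ => ?_
        rw [h0, map_zsmul, zsmul_eq_mul]
        ring
      rw [h3, hv, map_zero, mul_zero]
    have h3 : prodForm g (fun j => (v j : ℝ)) = 0 := by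
      rw [prodForm]
      exact Finset.prod_eq_zero (Finset.mem_univ 0) h2
    rw [h3, abs_zero] at h1
    linarith
  obtain ⟨D, hD0, hD⟩ := common_denom h3 k hli
  have hDr : (D : ℝ) ≠ 0 := by exact_mod_cast hD0
  have hDK : (D : K) ≠ 0 := by exact_mod_cast hD0
  -- embeddings
  obtain ⟨σ, hinj, hσ0⟩ := exists_sigma h3 ((algebraMap ℝ ℂ).comp τ0)
  have hσ0' : ∀ y, σ 0 y = (τ0 y : ℂ) := fun y => by rw [hσ0]; rfl
  have hc0 : ComplexEmbedding.conjugate (σ 0) = σ 0 := by
    ext y
    rw [ComplexEmbedding.conjugate_coe_eq, hσ0']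
    exact Complex.conj_ofReal _
  have hspan : ∀ f : K →+ ℂ, (∀ j (q : ℚ), f (q • k j) = 0) → ∀ y, f y = 0 := by
    intro f hf y
    set B := basisOfLinearIndependentOfCardEqFinrank hli (by rw [h3]; rfl) with hB
    have hBk : ∀ j, B j = k j := fun j => by simp [hB]
    rw [← B.sum_repr y, map_sum]
    refine Finset.sum_eq_zero fun j _ => ?_
    rw [hBk]
    exact hf j _
  have hind : ∀ x : Fin 3 → ℂ, (∀ j, ∑ i, x i * σ i (k j) = 0) → x = 0 := by
    intro x hx
    refine dedekind σ hinj x fun y => ?_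
    have hadd : ∀ a b : K, ∑ i, x i * σ i (a + b) = ∑ i, x i * σ i a + ∑ i, x i * σ i b := by
      intro a b
      rw [← Finset.sum_add_distrib]
      exact Finset.sum_congr rfl fun i _ => by rw [map_add, mul_add]
    refine hspan (AddMonoidHom.mk' (fun y => ∑ i, x i * σ i y) hadd) ?_ y
    intro j q
    change ∑ i, x i * σ i (q • k j) = 0
    have : ∀ i, x i * σ i (q • k j) = (q : ℂ) * (x i * σ i (k j)) := by
      intro i
      rw [Algebra.smul_def, map_mul]
      have : σ i (algebraMap ℚ K q) = (q : ℂ) := by simp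
      rw [this]; ring
    simp only [this]
    rw [← Finset.mul_sum, hx, mul_zero]
  have hcases : ComplexEmbedding.conjugate (σ 1) = σ 1 ∨
      ComplexEmbedding.conjugate (σ 1) = σ 2 := by
    obtain ⟨i, hi⟩ := (univ_eq h3 σ hinj).2 (ComplexEmbedding.conjugate (σ 1))
    fin_cases i
    · exfalso
      have h1 : σ 1 = σ 0 := by
        have := congrArg ComplexEmbedding.conjugate hi
        simp only [ComplexEmbedding.involutive_conjugate K (σ 1)] at this
        rw [← this]; exact hc0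
      exact absurd (hinj h1) (by decide)
    · left; exact hi.symm
    · right; exact hi.symm
  -- general scaling of lower bound
  have hlow : ∀ (ρ : Fin 3 → (K →+ ℝ)) (a b d a' b' d' : ℝ), (∀ v : Fin 3 → ℤ,
      prodForm g (fun j => (v j : ℝ)) =
        c * ρ 0 (∑ j, (v j : K) * k j) * (a * ρ 0 (∑ j, (v j : K) * k j)
          + b * ρ 1 (∑ j, (v j : K) * k j) + d * ρ 2 (∑ j, (v j : K) * k j))
        * (a' * ρ 0 (∑ j, (v j : K) * k j)
          + b' * ρ 1 (∑ j, (v j : K) * k j) + d' * ρ 2 (∑ j, (v j : K) * k j))) →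
      ∀ y : 𝓞 K, y ≠ 0 → δ / |(D : ℝ)| ^ 3 ≤ |c * ρ 0 y * (a * ρ 0 y + b * ρ 1 y + d * ρ 2 y)
        * (a' * ρ 0 y + b' * ρ 1 y + d' * ρ 2 y)| := by
    intro ρ a b d a' b' d' hv y hy
    obtain ⟨v, hvD⟩ := hD y
    have hv0 : v ≠ 0 := by
      rintro rfl
      simp at hvD
      rcases hvD with h | h
      · exact hD0 h
      · exact hy h
    have h1 := H v hv0
    rw [hv v, hvD] at h1
    have h2 : ∀ m, ρ m ((D : K) * (y : K)) = D * ρ m y := by
      intro m
      rw [← zsmul_eq_mul, map_zsmul, zsmul_eq_mul]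
    rw [h2, h2, h2] at h1
    have h4 : c * (D * ρ 0 y) * (a * (D * ρ 0 y) + b * (D * ρ 1 y) + d * (D * ρ 2 y))
        * (a' * (D * ρ 0 y) + b' * (D * ρ 1 y) + d' * (D * ρ 2 y))
        = D ^ 3 * (c * ρ 0 y * (a * ρ 0 y + b * ρ 1 y + d * ρ 2 y)
        * (a' * ρ 0 y + b' * ρ 1 y + d' * ρ 2 y)) := by ring
    rw [h4, abs_mul, abs_pow] at h1
    rw [div_le_iff₀ (by positivity), mul_comm]
    exact h1
  have hδ' : 0 < δ / |(D : ℝ)| ^ 3 := by positivity
  rcases hcases with hre | hco
  · -- real case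
    have hc2 : ComplexEmbedding.conjugate (σ 2) = σ 2 := by
      obtain ⟨i, hi⟩ := (univ_eq h3 σ hinj).2 (ComplexEmbedding.conjugate (σ 2))
      have h5 : ComplexEmbedding.conjugate (σ i) = σ 2 := by
        rw [hi]; exact ComplexEmbedding.involutive_conjugate K (σ 2)
      fin_cases i
      · exfalso
        have h1 : σ 0 = σ 2 := by rw [← h5]; exact hc0.symm
        exact absurd (hinj h1) (by decide)
      · exfalso
        have h1 : σ 1 = σ 2 := by rw [← h5]; exact hre.symm
        exact absurd (hinj h1) (by decide)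
      · exact hi.symm
    have hreal : ∀ i, ComplexEmbedding.IsReal (σ i) := by
      intro i
      rw [ComplexEmbedding.isReal_iff]
      fin_cases i
      · exact hc0
      · exact hre
      · exact hc2
    let Dt : RealData K :=
      { h3 := h3
        σ := σ
        hinj := hinj
        τ := fun i => (hreal i).embedding
        hστ := fun i y => ((hreal i).coe_embedding_apply y).symm }
    have hτ0 : ∀ y, Dt.τ 0 y = τ0 y := by
      intro y
      have h1 := Dt.hστ 0 y
      have h2 : Dt.σ 0 y = (τ0 y : ℂ) := hσ0' y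
      rw [h2] at h1
      exact_mod_cast h1.symm
    set ρ : Fin 3 → (K →+ ℝ) := fun i => (Dt.τ i).toAddMonoidHom with hρ
    have hρτ : ∀ i y, ρ i y = Dt.τ i y := fun _ _ => rfl
    have hP : (Matrix.of fun m j => ρ m (k j)).det ≠ 0 := by
      intro hdet
      rw [← Matrix.exists_vecMul_eq_zero_iff] at hdet
      obtain ⟨x, hx0, hx⟩ := hdet
      apply hx0
      have h1 := hind (fun i => (x i : ℂ)) (fun j => by
        have h2 := congrFun hx j
        simp only [vecMul, dotProduct, Matrix.of_apply, Pi.zero_apply] at h2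
        have h6 : ∀ i, σ i (k j) = ((ρ i (k j) : ℝ) : ℂ) := fun i => Dt.hστ i (k j)
        simp only [h6]
        exact_mod_cast h2)
      funext i
      have h9 : (x i : ℂ) = 0 := congrFun h1 i
      exact Complex.ofReal_eq_zero.mp h9
    obtain ⟨a, b, d, a', b', d', hdet, hv⟩ := change_basis ρ k g c
      (fun j => by rw [h0, hρτ, hτ0]) hg hP
    obtain ⟨C, hC⟩ := real_case Dt c a b d a' b' d' _ hδ' hdet (hlow ρ a b d a' b' d' hv)
    have hF : ∀ v : Fin 3 → ℤ, prodForm g (fun j => (v j : ℝ)) =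
        C * ((Algebra.norm ℚ (∑ j, (v j : K) * k j) : ℚ) : ℝ) := by
      intro v
      rw [hv v]
      have h1 := hC (∑ j, (v j : K) * k j)
      simp only [hρτ]
      rw [h1]
      congr 1
      have h2 := norm_eq h3 σ hinj (∑ j, (v j : K) * k j)
      have h6 : ∀ i, σ i (∑ j, (v j : K) * k j) = ((Dt.τ i (∑ j, (v j : K) * k j) : ℝ) : ℂ) :=
        fun i => Dt.hστ i _
      rw [h6, h6, h6] at h2
      exact_mod_cast h2.symm
    -- integrality
    obtain ⟨E, hE0, hE⟩ : ∃ E : ℤ, E ≠ 0 ∧ ∀ j, IsIntegral ℤ ((E : K) * k j) := by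
      have hEx : ∀ j, ∃ y : ℤ, y ≠ 0 ∧ IsIntegral ℤ (y • k j) := by
        intro j
        obtain ⟨y, hy0, hy⟩ := (show IsAlgebraic ℤ (k j) from
          (IsFractionRing.isAlgebraic_iff ℤ ℚ K).mpr
            (Algebra.IsAlgebraic.isAlgebraic (k j))).exists_integral_multiple
        exact ⟨y, hy0, hy⟩
      choose E hE0 hE using hEx
      refine ⟨∏ j, E j, Finset.prod_ne_zero_iff.mpr fun j _ => hE0 j, fun j => ?_⟩
      rw [← Finset.mul_prod_erase Finset.univ E (Finset.mem_univ j)]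
      have h7 : (((E j * ∏ i ∈ Finset.univ.erase j, E i : ℤ)) : K) * k j
          = ((∏ i ∈ Finset.univ.erase j, E i : ℤ) : K) * (E j • k j) := by
        rw [zsmul_eq_mul]; push_cast; ring
      rw [h7]
      exact (isIntegral_algebraMap (R := ℤ) (A := K)
        (x := ∏ i ∈ Finset.univ.erase j, E i)).mul (hE j)
    have hEr : (E : ℝ) ≠ 0 := by exact_mod_cast hE0
    have hnorm : ∀ v : Fin 3 → ℤ, ∃ m : ℤ,
        (Algebra.norm ℚ (∑ j, (v j : K) * k j) : ℚ) * (E : ℚ) ^ 3 = m := by
      intro v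
      have h1 : IsIntegral ℤ ((E : K) * ∑ j, (v j : K) * k j) := by
        rw [Finset.mul_sum]
        refine IsIntegral.sum _ fun j _ => ?_
        have : (E : K) * ((v j : K) * k j) = (v j : K) * ((E : K) * k j) := by ring
        rw [this]
        exact (isIntegral_algebraMap (R := ℤ) (A := K) (x := v j)).mul (hE j)
      have h2 : IsIntegral ℤ (Algebra.norm ℚ ((E : K) * ∑ j, (v j : K) * k j)) :=
        Algebra.isIntegral_norm ℚ h1
      obtain ⟨m, hm⟩ := IsIntegrallyClosed.isIntegral_iff.mp h2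
      refine ⟨m, ?_⟩
      rw [map_mul] at hm
      have h4 : Algebra.norm ℚ (E : K) = (E : ℚ) ^ 3 := by
        have : (E : K) = algebraMap ℚ K (E : ℚ) := by simp
        rw [this, Algebra.norm_algebraMap, h3]
      rw [h4] at hm
      rw [mul_comm]
      exact hm.symm
    have hC0 : C ≠ 0 := by
      rintro rfl
      have h1 := H ![1, 0, 0] (by
        intro h
        have := congrFun h 0
        simp at this)
      rw [hF, zero_mul, abs_zero] at h1
      linarith
    refine ⟨|C| / |(E : ℝ)| ^ 3, by positivity, fun v => ?_⟩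
    obtain ⟨m, hm⟩ := hnorm v
    have hm' : ((Algebra.norm ℚ (∑ j, (v j : K) * k j) : ℚ) : ℝ) * (E : ℝ) ^ 3 = m := by
      exact_mod_cast hm
    rw [hF v]
    have h5 : ((Algebra.norm ℚ (∑ j, (v j : K) * k j) : ℚ) : ℝ) = m / (E : ℝ) ^ 3 := by
      rw [← hm']; field_simp
    rw [h5]
    rcases abs_choice C with hC1 | hC1 <;> rcases abs_choice (E : ℝ) with hE1 | hE1 <;>
      rw [hC1, hE1]
    · exact ⟨m, by ring⟩
    · refine ⟨-m, ?_⟩
      push_cast
      field_simp
    · refine ⟨-m, ?_⟩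
      push_cast
      field_simp
    · refine ⟨m, ?_⟩
      field_simp
  · -- complex case
    exfalso
    set ρ : Fin 3 → (K →+ ℝ) := ![τ0.toAddMonoidHom,
      Complex.reAddGroupHom.comp (σ 1).toAddMonoidHom,
      Complex.imAddGroupHom.comp (σ 1).toAddMonoidHom] with hρ
    have hρ0 : ∀ y, ρ 0 y = τ0 y := fun _ => rfl
    have hρ1 : ∀ y, ρ 1 y = (σ 1 y).re := fun _ => rfl
    have hρ2 : ∀ y, ρ 2 y = (σ 1 y).im := fun _ => rfl
    have hP : (Matrix.of fun m j => ρ m (k j)).det ≠ 0 := by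
      intro hdet
      rw [← Matrix.exists_vecMul_eq_zero_iff] at hdet
      obtain ⟨x, hx0, hx⟩ := hdet
      apply hx0
      have h1 := hind ![(x 0 : ℂ), ((x 1 : ℂ) - (x 2 : ℂ) * Complex.I) / 2,
        ((x 1 : ℂ) + (x 2 : ℂ) * Complex.I) / 2] (fun j => by
        have h2 := congrFun hx j
        simp only [vecMul, dotProduct, Matrix.of_apply, Pi.zero_apply, Fin.sum_univ_three] at h2
        rw [hρ0, hρ1, hρ2] at h2
        rw [Fin.sum_univ_three]
        simp only [Matrix.cons_val_zero, Matrix.cons_val_one, Matrix.cons_val]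
        rw [← hco, ComplexEmbedding.conjugate_coe_eq, hσ0']
        apply Complex.ext
        · simp
          linarith
        · simp
          ring)
      have e0 := congrFun h1 0
      have e1 := congrFun h1 1
      simp only [Matrix.cons_val_zero, Matrix.cons_val_one, Pi.zero_apply] at e0 e1
      have e2 := congrArg Complex.re e1
      have e3 := congrArg Complex.im e1
      simp at e0 e2 e3
      funext i
      fin_cases i
      · exact e0
      · exact e2
      · exact e3
    obtain ⟨a, b, d, a', b', d', hdet, hv⟩ := change_basis ρ k g c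
      (fun j => by rw [h0, hρ0]) hg hP
    exact complex_case h3 σ hinj τ0 hσ0' hco c a b d a' b' d' _ hδ'
      (hlow ρ a b d a' b' d' hv)

end Margulis3
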