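import Pool.Agent.Margulis3.Field

set_option autoImplicit false
open Filter Topology Matrix Module NumberField

namespace Margulis3

variable {K : Type*} [Field K] [NumberField K]

/-- two different real embeddings: a product of conjugates of prescribed sign -/
lemma sign_choice (τ1 τ2 : K →+* ℝ) (hne : τ1 ≠ τ2) (w : ℝ) (hw : w ≠ 0) :
    ∃ v : 𝓞 K, v ≠ 0 ∧ 0 < w * (τ1 v * τ2 v) := by
  rcases lt_or_gt_of_ne hw with h | h
  swap
  · exact ⟨1, one_ne_zero, by simpa using h⟩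
  obtain ⟨v0, hv0⟩ : ∃ v0 : 𝓞 K, τ1 v0 ≠ τ2 v0 := by
    by_contra hcon
    push Not at hcon
    apply hne
    refine IsLocalization.ringHom_ext (nonZeroDivisors (𝓞 K)) ?_
    ext y
    exact hcon y
  have main : ∀ x y : ℝ, x < y → ∃ (N p : ℤ), (N * x - p) * (N * y - p) < 0 := by
    intro x y hxy
    obtain ⟨q, hq1, hq2⟩ := exists_rat_btwn hxy
    refine ⟨q.den, q.num, ?_⟩
    have hqd : (0 : ℝ) < (q.den : ℝ) := by exact_mod_cast q.pos
    have hqe : (q : ℝ) = (q.num : ℝ) / (q.den : ℝ) := by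
      exact_mod_cast (Rat.num_div_den q).symm
    rw [hqe] at hq1 hq2
    rw [lt_div_iff₀ hqd] at hq1
    rw [div_lt_iff₀ hqd] at hq2
    push_cast
    refine mul_neg_of_neg_of_pos ?_ ?_
    · linarith
    · linarith
  obtain ⟨N, p, hNp⟩ : ∃ N p : ℤ, (N * τ1 v0 - p) * (N * τ2 v0 - p) < 0 := by
    rcases lt_or_gt_of_ne hv0 with h1 | h1
    · exact main _ _ h1
    · obtain ⟨N, p, h2⟩ := main _ _ h1
      exact ⟨N, p, by rw [mul_comm]; exact h2⟩
  have e1 : ∀ τ : K →+* ℝ, τ (((N : 𝓞 K) * v0 - (p : 𝓞 K) : 𝓞 K) : K) = N * τ v0 - p := by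
    intro τ
    simp
  refine ⟨(N : 𝓞 K) * v0 - (p : 𝓞 K), ?_, ?_⟩
  · intro h0
    have h5 := e1 τ1
    rw [h0] at h5
    simp only [map_zero] at h5
    rw [← h5, zero_mul] at hNp
    exact lt_irrefl _ hNp
  · rw [e1, e1]
    exact mul_pos_of_neg_of_neg h hNp

/-- data of three real embeddings -/
structure RealData (K : Type*) [Field K] [NumberField K] where
  h3 : finrank ℚ K = 3
  σ : Fin 3 → (K →+* ℂ)
  hinj : Function.Injective σ
  τ : Fin 3 → (K →+* ℝ)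
  hστ : ∀ i y, σ i y = (τ i y : ℂ)

namespace RealData

variable (D : RealData K)

include D

lemma τ_ne {i j : Fin 3} (hij : i ≠ j) : D.τ i ≠ D.τ j := by
  intro h
  apply hij
  apply D.hinj
  ext y
  rw [D.hστ, D.hστ, h]

lemma conj_eq (i : Fin 3) : ComplexEmbedding.conjugate (D.σ i) = D.σ i := by
  ext y
  rw [ComplexEmbedding.conjugate_coe_eq, D.hστ]
  exact Complex.conj_ofReal _

lemma mk_ne {i j : Fin 3} (hij : i ≠ j) : InfinitePlace.mk (D.σ i) ≠ InfinitePlace.mk (D.σ j) := by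
  intro h
  rw [InfinitePlace.mk_eq_iff, D.conj_eq] at h
  apply hij
  apply D.hinj
  rcases h with h | h <;> exact h

lemma exists_unit (i : Fin 3) : ∃ u : Additive (𝓞 K)ˣ, ∀ j, j ≠ i → lg (D.σ j) u < 0 := by
  obtain ⟨u, hu⟩ := NumberField.Units.dirichletUnitTheorem.exists_unit K
    (InfinitePlace.mk (D.σ i))
  exact ⟨Additive.ofMul u, fun j hj => hu _ (D.mk_ne hj)⟩

lemma ker (j k : Fin 3) (hjk : j ≠ k) (u : Additive (𝓞 K)ˣ)
    (h : lg (D.σ k) u = lg (D.σ j) u) (i : Fin 3) : lg (D.σ i) u = 0 := by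
  set x : (𝓞 K)ˣ := Additive.toMul u with hx
  have h1 : ‖D.σ k x‖ = ‖D.σ j x‖ :=
    Real.log_injOn_pos (norm_pos' _ x) (norm_pos' _ x) h
  have h2 : D.σ k (x : K) ^ 2 = D.σ j (x : K) ^ 2 := by
    rw [D.hστ, D.hστ] at h1 ⊢
    rw [Complex.norm_real, Complex.norm_real, Real.norm_eq_abs, Real.norm_eq_abs] at h1
    have : (D.τ k (x : K)) ^ 2 = (D.τ j (x : K)) ^ 2 := by
      rw [← sq_abs, h1, sq_abs]
    exact_mod_cast this
  have h3 : D.σ k (((x ^ 2 : (𝓞 K)ˣ)) : K) = D.σ j (((x ^ 2 : (𝓞 K)ˣ)) : K) := by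
    rw [NumberField.Units.coe_pow, map_pow, map_pow, h2]
  have hne : D.σ k ≠ D.σ j := fun h => hjk (D.hinj h).symm
  obtain ⟨q, hq⟩ := rat_of_eq D.h3 _ _ hne _ h3
  have h4 := norm_one_of_rat D.h3 D.σ D.hinj (x ^ 2) q hq i
  rw [NumberField.Units.coe_pow, map_pow, norm_pow] at h4
  have h5 : ‖D.σ i x‖ = 1 := by
    have := norm_pos' (D.σ i) x
    nlinarith
  change Real.log ‖D.σ i x‖ = 0
  rw [h5, Real.log_one]

lemma dense (j k : Fin 3) (hjk : j ≠ k) :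
    Dense (Set.range (lg (D.σ k) - lg (D.σ j) : Additive (𝓞 K)ˣ →+ ℝ)) := by
  rcases AddSubgroup.dense_or_cyclic (lg (D.σ k) - lg (D.σ j) : Additive (𝓞 K)ˣ →+ ℝ).range
    with h | ⟨a, ha⟩
  · simpa using h
  exfalso
  have hamem : a ∈ (lg (D.σ k) - lg (D.σ j) : Additive (𝓞 K)ˣ →+ ℝ).range := by
    rw [ha]; exact AddSubgroup.subset_closure rfl
  obtain ⟨u0, hu0⟩ := hamem
  have hall : ∀ u : Additive (𝓞 K)ˣ, ∃ n : ℤ, ∀ i, lg (D.σ i) u = n * lg (D.σ i) u0 := by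
    intro u
    have hu : (lg (D.σ k) - lg (D.σ j) : Additive (𝓞 K)ˣ →+ ℝ) u
        ∈ (lg (D.σ k) - lg (D.σ j) : Additive (𝓞 K)ˣ →+ ℝ).range := ⟨u, rfl⟩
    rw [ha, AddSubgroup.mem_closure_singleton] at hu
    obtain ⟨n, hn⟩ := hu
    refine ⟨n, fun i => ?_⟩
    have h1 : (lg (D.σ k) - lg (D.σ j) : Additive (𝓞 K)ˣ →+ ℝ) (u - n • u0) = 0 := by
      rw [map_sub, map_zsmul, hu0, hn, sub_self]
    rw [AddMonoidHom.sub_apply, sub_eq_zero] at h1
    have h2 := D.ker j k hjk _ h1 i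
    rw [map_sub, map_zsmul, sub_eq_zero] at h2
    rw [h2]; simp
  obtain ⟨x0, hx0⟩ := D.exists_unit 0
  obtain ⟨x1, hx1⟩ := D.exists_unit 1
  obtain ⟨n0, hn0⟩ := hall x0
  obtain ⟨n1, hn1⟩ := hall x1
  have s0 := lg_sum D.h3 D.σ D.hinj x0
  have s1 := lg_sum D.h3 D.σ D.hinj x1
  have a1 := hx0 1 (by decide)
  have a2 := hx0 2 (by decide)
  have b0 := hx1 0 (by decide)
  have b2 := hx1 2 (by decide)
  have a0 : 0 < lg (D.σ 0) x0 := by linarith
  have b1 : 0 < lg (D.σ 1) x1 := by linarith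
  rw [hn0] at a0 a2
  rw [hn1] at b0 b2
  have c1 : (n0 * lg (D.σ 0) u0) * (n1 * lg (D.σ 0) u0) < 0 := mul_neg_of_pos_of_neg a0 b0
  have c2 : 0 < (n0 * lg (D.σ 2) u0) * (n1 * lg (D.σ 2) u0) := mul_pos_of_neg_of_neg a2 b2
  have d1 : ((n0 : ℝ) * n1) * (lg (D.σ 0) u0) ^ 2 < 0 := by nlinarith
  have d2 : 0 < ((n0 : ℝ) * n1) * (lg (D.σ 2) u0) ^ 2 := by nlinarith
  have e1 : (n0 : ℝ) * n1 < 0 := by
    by_contra hcon
    push Not at hcon
    have := mul_nonneg hcon (sq_nonneg (lg (D.σ 0) u0))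
    linarith
  have := mul_nonneg (neg_pos.mpr e1).le (sq_nonneg (lg (D.σ 2) u0))
  linarith

lemma fin_strip (B : ℝ) (h : Additive (𝓞 K)ˣ →+ ℝ)
    (hh : h = lg (D.σ 0) ∨ h = - lg (D.σ 0)) :
    {x : Additive (𝓞 K)ˣ | |(lg (D.σ 2) - lg (D.σ 1) : Additive (𝓞 K)ˣ →+ ℝ) x| ≤ B
      ∧ |h x| ≤ B}.Finite := by
  refine (units_finite D.h3 D.σ D.hinj B).subset ?_
  rintro x ⟨h1, h2⟩
  have h2' : |lg (D.σ 0) x| ≤ B := by
    rcases hh with rfl | rfl
    · exact h2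
    · simpa using h2
  rw [AddMonoidHom.sub_apply, abs_le] at h1
  have h3 := abs_le.mp h2'
  have s := lg_sum D.h3 D.σ D.hinj x
  intro i
  fin_cases i
  · exact h2'
  · change |lg (D.σ 1) x| ≤ B
    rw [abs_le]
    constructor <;> linarith
  · change |lg (D.σ 2) x| ≤ B
    rw [abs_le]
    constructor <;> linarith

/-- sequences of units -/
lemma seq_aux (h : Additive (𝓞 K)ˣ →+ ℝ) (hh : h = lg (D.σ 0) ∨ h = - lg (D.σ 0)) (t : ℝ) :
    ∃ x : ℕ → Additive (𝓞 K)ˣ,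
      Tendsto (fun n => lg (D.σ 2) (x n) - lg (D.σ 1) (x n)) atTop (𝓝 t) ∧
      Tendsto (fun n => h (x n)) atTop atBot := by
  have h1 : ∀ n : ℕ, ∃ x : Additive (𝓞 K)ˣ,
      |(lg (D.σ 2) - lg (D.σ 1) : Additive (𝓞 K)ˣ →+ ℝ) x - t| < 1 / ((n : ℝ) + 1)
        ∧ h x < -(n : ℝ) := fun n =>
    strip _ h (D.dense 1 2 (by decide)) (fun B => D.fin_strip B h hh) t (1 / ((n : ℝ) + 1)) n
      (by positivity)
  choose x hx1 hx2 using h1
  refine ⟨x, ?_, ?_⟩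
  · rw [tendsto_iff_dist_tendsto_zero]
    refine squeeze_zero (fun _ => dist_nonneg) (fun n => ?_) tendsto_one_div_add_atTop_nhds_zero_nat
    rw [Real.dist_eq]
    exact (hx1 n).le
  · refine tendsto_atBot_mono (fun n => (hx2 n).le) ?_
    exact tendsto_neg_atTop_atBot.comp tendsto_natCast_atTop_atTop

lemma τ_sq (x : Additive (𝓞 K)ˣ) (i : Fin 3) :
    D.τ i (((Additive.toMul x ^ 2 : (𝓞 K)ˣ)) : K) = Real.exp (2 * lg (D.σ i) x) := by
  rw [NumberField.Units.coe_pow, map_pow]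
  have h1 : lg (D.σ i) x = Real.log ‖D.σ i ((Additive.toMul x : (𝓞 K)ˣ) : K)‖ := rfl
  rw [h1, two_mul, Real.exp_add, Real.exp_log (norm_pos' _ _), D.hστ, Complex.norm_real,
    Real.norm_eq_abs, abs_mul_abs_self, sq]

lemma ne_zero_of (x : Additive (𝓞 K)ˣ) (v : 𝓞 K) (hv : v ≠ 0) :
    (((Additive.toMul x ^ 2 : (𝓞 K)ˣ)) : 𝓞 K) * v ≠ 0 :=
  mul_ne_zero (Units.ne_zero _) hv

omit D in
lemma not_tendsto_zero (δ : ℝ) (hδ : 0 < δ) (f : ℕ → ℝ) (hf : ∀ n, δ ≤ |f n|)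
    (h : Tendsto f atTop (𝓝 0)) : False := by
  have h1 : Tendsto (fun n => |f n|) atTop (𝓝 |(0 : ℝ)|) := h.abs
  rw [abs_zero] at h1
  have := ge_of_tendsto' h1 hf
  linarith

lemma rc1 (c a b d a' b' d' δ : ℝ) (hδ : 0 < δ)
    (H : ∀ y : 𝓞 K, y ≠ 0 → δ ≤ |c * D.τ 0 y * (a * D.τ 0 y + b * D.τ 1 y + d * D.τ 2 y)
      * (a' * D.τ 0 y + b' * D.τ 1 y + d' * D.τ 2 y)|) : b = 0 ∨ d = 0 := by
  by_contra hcon
  push Not at hcon
  obtain ⟨hb, hd⟩ := hcon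
  obtain ⟨v, hv, hvs⟩ := sign_choice (D.τ 1) (D.τ 2) (D.τ_ne (by decide)) (-(b * d))
    (neg_ne_zero.mpr (mul_ne_zero hb hd))
  have hV2 : D.τ 2 v ≠ 0 := by
    intro h; rw [h] at hvs; simp at hvs
  set s : ℝ := -(b * D.τ 1 v) / (d * D.τ 2 v) with hs
  have hs0 : 0 < s := by
    have : s = (-(b * d) * (D.τ 1 v * D.τ 2 v)) / (d * D.τ 2 v) ^ 2 := by
      rw [hs]; field_simp
    rw [this]
    have : d * D.τ 2 v ≠ 0 := mul_ne_zero hd hV2
    positivity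
  obtain ⟨x, hx1, hx2⟩ := D.seq_aux (lg (D.σ 0)) (Or.inl rfl) (Real.log s / 2)
  set l := fun (i : Fin 3) n => lg (D.σ i) (x n) with hl
  have hsum : ∀ n, l 0 n + l 1 n + l 2 n = 0 := fun n => lg_sum D.h3 D.σ D.hinj (x n)
  have hr : Tendsto (fun n => Real.exp (2 * (l 2 n - l 1 n))) atTop (𝓝 s) := by
    have : Tendsto (fun n => Real.exp (2 * (l 2 n - l 1 n))) atTop
        (𝓝 (Real.exp (2 * (Real.log s / 2)))) :=
      (Real.continuous_exp.tendsto _).comp (hx1.const_mul 2)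
    rwa [mul_div_cancel₀ _ two_ne_zero, Real.exp_log hs0] at this
  have hq : Tendsto (fun n => Real.exp (-(2 * (l 2 n - l 1 n)))) atTop (𝓝 s⁻¹) := by
    have := hr.inv₀ hs0.ne'
    refine this.congr fun n => ?_
    rw [Real.exp_neg]
  have he : Tendsto (fun n => Real.exp (2 * (l 0 n - l 1 n))) atTop (𝓝 0) := by
    refine Real.tendsto_exp_atBot.comp ?_
    have h1 : Tendsto (fun n => 3 * l 0 n + (l 2 n - l 1 n)) atTop atBot :=
      (hx2.const_mul_atBot (by norm_num : (0 : ℝ) < 3)).atBot_add hx1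
    refine h1.congr fun n => ?_
    have := hsum n
    linarith
  refine not_tendsto_zero δ hδ
    (fun n => c * D.τ 0 v * Real.exp (-(2 * (l 2 n - l 1 n)))
      * (a * D.τ 0 v * Real.exp (2 * (l 0 n - l 1 n)) + b * D.τ 1 v
        + d * D.τ 2 v * Real.exp (2 * (l 2 n - l 1 n)))
      * (a' * D.τ 0 v * Real.exp (2 * (l 0 n - l 1 n)) + b' * D.τ 1 v
        + d' * D.τ 2 v * Real.exp (2 * (l 2 n - l 1 n)))) ?_ ?_
  · intro n
    have h1 := H _ (D.ne_zero_of (x n) v hv)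
    have h2 : ∀ i, D.τ i (((((Additive.toMul (x n) ^ 2 : (𝓞 K)ˣ)) : 𝓞 K) * v : 𝓞 K) : K)
        = Real.exp (2 * l i n) * D.τ i v := by
      intro i
      have h3 := D.τ_sq (x n) i
      rw [← h3, ← map_mul]
      rfl
    rw [h2, h2, h2] at h1
    refine h1.trans (le_of_eq ?_)
    congr 1
    have e0 : Real.exp (2 * l 0 n) = Real.exp (2 * (l 0 n - l 1 n)) * Real.exp (2 * l 1 n) := by
      rw [← Real.exp_add]; congr 1; ring
    have e2 : Real.exp (2 * l 2 n) = Real.exp (2 * (l 2 n - l 1 n)) * Real.exp (2 * l 1 n) := by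
      rw [← Real.exp_add]; congr 1; ring
    have e3 : Real.exp (-(2 * (l 2 n - l 1 n))) = Real.exp (2 * (l 0 n - l 1 n))
        * Real.exp (2 * l 1 n) * Real.exp (2 * l 1 n) * Real.exp (2 * l 1 n) := by
      rw [← Real.exp_add, ← Real.exp_add, ← Real.exp_add]; congr 1
      have := hsum n
      linarith
    rw [e0, e2, e3]
    ring
  · have h1 := ((hq.const_mul (c * D.τ 0 v)).mul
      (((he.const_mul (a * D.τ 0 v)).add_const (b * D.τ 1 v)).add
        (hr.const_mul (d * D.τ 2 v)))).mul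
      (((he.const_mul (a' * D.τ 0 v)).add_const (b' * D.τ 1 v)).add
        (hr.const_mul (d' * D.τ 2 v)))
    have h2 : a * D.τ 0 v * 0 + b * D.τ 1 v + d * D.τ 2 v * s = 0 := by
      rw [hs]; field_simp; ring
    rw [h2, mul_zero, zero_mul] at h1
    exact h1

/-- second contradiction: index 0 here is the expanding one -/
lemma rc3 (c a b a' d' δ : ℝ) (hδ : 0 < δ) (hb : b ≠ 0)
    (H : ∀ y : 𝓞 K, y ≠ 0 → δ ≤ |c * D.τ 1 y * (a * D.τ 1 y + b * D.τ 2 y)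
      * (a' * D.τ 1 y + d' * D.τ 0 y)|) : a = 0 := by
  by_contra ha
  obtain ⟨v, hv, hvs⟩ := sign_choice (D.τ 1) (D.τ 2) (D.τ_ne (by decide)) (-(a * b))
    (neg_ne_zero.mpr (mul_ne_zero ha hb))
  have hV2 : D.τ 2 v ≠ 0 := by
    intro h; rw [h] at hvs; simp at hvs
  set s : ℝ := -(a * D.τ 1 v) / (b * D.τ 2 v) with hs
  have hs0 : 0 < s := by
    have : s = (-(a * b) * (D.τ 1 v * D.τ 2 v)) / (b * D.τ 2 v) ^ 2 := by
      rw [hs]; field_simp
    rw [this]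
    have : b * D.τ 2 v ≠ 0 := mul_ne_zero hb hV2
    positivity
  obtain ⟨x, hx1, hx2'⟩ := D.seq_aux (-lg (D.σ 0)) (Or.inr rfl) (Real.log s / 2)
  set l := fun (i : Fin 3) n => lg (D.σ i) (x n) with hl
  have hx2 : Tendsto (fun n => - l 0 n) atTop atBot := hx2'
  have hsum : ∀ n, l 0 n + l 1 n + l 2 n = 0 := fun n => lg_sum D.h3 D.σ D.hinj (x n)
  have hr : Tendsto (fun n => Real.exp (2 * (l 2 n - l 1 n))) atTop (𝓝 s) := by
    have : Tendsto (fun n => Real.exp (2 * (l 2 n - l 1 n))) atTop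
        (𝓝 (Real.exp (2 * (Real.log s / 2)))) :=
      (Real.continuous_exp.tendsto _).comp (hx1.const_mul 2)
    rwa [mul_div_cancel₀ _ two_ne_zero, Real.exp_log hs0] at this
  have hq : Tendsto (fun n => Real.exp (-(2 * (l 2 n - l 1 n)))) atTop (𝓝 s⁻¹) := by
    have := hr.inv₀ hs0.ne'
    refine this.congr fun n => ?_
    rw [Real.exp_neg]
  have he : Tendsto (fun n => Real.exp (2 * (l 1 n - l 0 n))) atTop (𝓝 0) := by
    refine Real.tendsto_exp_atBot.comp ?_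
    have h1 : Tendsto (fun n => 3 * (- l 0 n) + -(l 2 n - l 1 n)) atTop atBot :=
      (hx2.const_mul_atBot (by norm_num : (0 : ℝ) < 3)).atBot_add hx1.neg
    refine h1.congr fun n => ?_
    have := hsum n
    linarith
  refine not_tendsto_zero δ hδ
    (fun n => c * D.τ 1 v * Real.exp (-(2 * (l 2 n - l 1 n)))
      * (a * D.τ 1 v + b * D.τ 2 v * Real.exp (2 * (l 2 n - l 1 n)))
      * (a' * D.τ 1 v * Real.exp (2 * (l 1 n - l 0 n)) + d' * D.τ 0 v)) ?_ ?_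
  · intro n
    have h1 := H _ (D.ne_zero_of (x n) v hv)
    have h2 : ∀ i, D.τ i (((((Additive.toMul (x n) ^ 2 : (𝓞 K)ˣ)) : 𝓞 K) * v : 𝓞 K) : K)
        = Real.exp (2 * l i n) * D.τ i v := by
      intro i
      have h3 := D.τ_sq (x n) i
      rw [← h3, ← map_mul]
      rfl
    rw [h2, h2, h2] at h1
    refine h1.trans (le_of_eq ?_)
    congr 1
    have e0 : Real.exp (2 * l 1 n) = Real.exp (2 * (l 1 n - l 0 n)) * Real.exp (2 * l 0 n) := by
      rw [← Real.exp_add]; congr 1; ring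
    have e2 : Real.exp (2 * l 2 n) = Real.exp (2 * (l 2 n - l 1 n)) * Real.exp (2 * l 1 n) := by
      rw [← Real.exp_add]; congr 1; ring
    have e3 : Real.exp (-(2 * (l 2 n - l 1 n))) = Real.exp (2 * l 1 n)
        * Real.exp (2 * l 1 n) * Real.exp (2 * l 0 n) := by
      rw [← Real.exp_add, ← Real.exp_add]; congr 1
      have := hsum n
      linarith
    rw [e3, e2]
    have e4 : a' * (Real.exp (2 * l 1 n) * D.τ 1 v) + d' * (Real.exp (2 * l 0 n) * D.τ 0 v)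
      = Real.exp (2 * l 0 n) *
        (a' * D.τ 1 v * Real.exp (2 * (l 1 n - l 0 n)) + d' * D.τ 0 v) := by
      rw [e0]; ring
    rw [e4]
    ring
  · have h1 := ((hq.const_mul (c * D.τ 1 v)).mul
      ((hr.const_mul (b * D.τ 2 v)).const_add (a * D.τ 1 v))).mul
      ((he.const_mul (a' * D.τ 1 v)).add_const (d' * D.τ 0 v))
    have h2 : a * D.τ 1 v + b * D.τ 2 v * s = 0 := by
      rw [hs]; field_simp; ring
    rw [h2, mul_zero, zero_mul] at h1
    exact h1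

/-- reindexing -/
def perm (π : Equiv.Perm (Fin 3)) : RealData K where
  h3 := D.h3
  σ := fun i => D.σ (π i)
  hinj := D.hinj.comp π.injective
  τ := fun i => D.τ (π i)
  hστ := fun i y => D.hστ (π i) y

end RealData

end Margulis3
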